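import Pool.Agent.J6H7.RO.Upp
import Pool.Agent.H620R2.GaugeR.Seq
import Pool.Agent.H591R3.PHG.LangSig

/-!
# Two closure properties of the levels of the relativized polynomial hierarchy
-/

set_option autoImplicit false

namespace Pool.Agent.J6H49.BI

open Pool.Agent.NPC Pool.Agent.H620R2.Gauge Pool.Agent.H622R2 Pool.Agent.H591R3.PHG
open Pool.Agent.J6H7.RO

/-- replace the innermost string -/
def rb : ℕ → List Bool → List Bool → List Bool
  | 0, _, x => x
  | j + 1, y, x => pairBits (unpair y).1 (rb j (unpair y).2 x)

theorem poly_rb {α : Type} [TEnc α] : ∀ (j : ℕ) {y x : α → List Bool}, Poly y → Poly x →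
    Poly (fun a => rb j (y a) (x a)) := by
  intro j
  induction j with
  | zero => intro y x _ hx; exact hx
  | succ j ih =>
    intro y x hy hx
    exact poly_pairBits (Poly.fst (poly_unpair.comp hy))
      (ih (Poly.snd (poly_unpair.comp hy)) hx)

theorem quant_rb (m : ℕ) (V g : List Bool → List Bool) (k : ℕ) : ∀ (j i : ℕ) (b : Bool)
    (u : List Bool), i + j = k →
      (Quant m (fun y => V (rb k y (g (strip k y)))) j b u ↔
        Quant m V j b (rb i u (g (strip i u)))) := by
  intro j
  induction j with
  | zero =>
    intro i b u h
    have hi : i = k := by omega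
    subst hi
    cases b <;> simp [Quant]
  | succ j ih =>
    intro i b u h
    have key : ∀ (w : List Bool) (b : Bool),
        (Quant m (fun y => V (rb k y (g (strip k y)))) j b (pairBits w u) ↔
        Quant m V j b (pairBits w (rb i u (g (strip i u))))) := by
      intro w b
      rw [ih (i + 1) b (pairBits w u) (by omega)]
      simp only [strip, rb, unpair_pairBits]
    cases b with
    | true => simp only [Quant, key]
    | false => simp only [Quant, key]

/-- the preimage of a language under a function which is computable in polynomial time with the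
oracle and does not change the lengths -/
theorem isSig_map {B : Oracle} {k : ℕ} {S : Set (List Bool)} {g : List Bool → List Bool}
    (hS : IsSig B k S) (hg : IsFP B g) (hl : ∀ x, (g x).length = x.length) :
    IsSig B k {x | g x ∈ S} := by
  obtain ⟨V, p, hV, hL⟩ := hS
  refine ⟨fun y => V (rb k y (g (strip k y))), p, ?_, fun x => ?_⟩
  · have h1 : IsFP B (fun y => g (strip k y)) := hg.precomp (poly_strip k)
    have h2 := IsFP.pair (IsFP.of_poly (A := B) (F := fun y => y) Poly.id) h1
    have h3 : IsFP B (fun z : List Bool => rb k (unpair z).1 (unpair z).2) :=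
      IsFP.of_poly (poly_rb k (Poly.fst poly_unpair) (Poly.snd poly_unpair))
    have h4 := IsFP.comp hV (IsFP.comp h3 h2)
    simp only [unpair_pairBits] at h4
    exact h4
  · have h5 := quant_rb (p.eval x.length) V g k k 0 true x (by omega)
    show g x ∈ S ↔ _
    rw [h5, hL]
    show Quant (p.eval (g x).length) V k true (g x) ↔ Quant (p.eval x.length) V k true (g x)
    rw [hl]

/-- the string `w`, made as long as `u` -/
theorem fit_len (u w : List Bool) : (LangSig.fit u w).length = u.length := LangSig.length_fit u w

/-- the lengths of the elements -/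
theorem isSig_tally {B : Oracle} {k : ℕ} {S : Set (List Bool)} (hS : IsSig B (k + 1) S) :
    IsSig B (k + 1) {y | ∃ x : List Bool, x.length = y.length ∧ x ∈ S} := by
  obtain ⟨V, p, hV, hL⟩ := hS
  have h1 : Poly (fun z : List Bool => (unpair z).1) := Poly.fst poly_unpair
  have h2 : Poly (fun z : List Bool => (unpair z).2) := Poly.snd poly_unpair
  have hν : UPoly (fun y : List Bool => 2 * p.eval y.length + 1 + y.length) := by
    have h := UPoly.eval (UPoly.length (Poly.id (α := List Bool)))
      (2 * p + 1 + Polynomial.X)
    simpa using h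
  have hp2 : UPoly (fun z : List Bool => p.eval (unpair z).2.length) :=
    UPoly.eval (UPoly.length h2) p
  -- the first string, cut
  have hc : Poly (fun z : List Bool => ((unpair (unpair z).1).1.zip
      (List.replicate (p.eval (unpair z).2.length) ())).map (fun u => u.1)) := by
    have h4 : Poly (fun z : List Bool => (unpair (unpair z).1).1.zip
        (List.replicate (p.eval (unpair z).2.length) ())) := Poly.zip (h1.comp h1) hp2
    exact NPC.Poly.map (F := fun _ u => u.1) h4 (Poly.fst (Poly.snd Poly.id))
  have hf : Poly (fun z : List Bool => LangSig.fit (unpair z).2 (unpair (unpair z).1).2) :=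
    LangSig.poly_fit h2 (h2.comp h1)
  have hπ : Poly (fun z : List Bool => pairBits (((unpair (unpair z).1).1.zip
      (List.replicate (p.eval (unpair z).2.length) ())).map (fun u => u.1))
      (LangSig.fit (unpair z).2 (unpair (unpair z).1).2)) := poly_pairBits hc hf
  refine isSig_ex (ν := fun y => 2 * p.eval y.length + 1 + y.length)
    (μ := fun z => p.eval (unpair z).2.length) hν hp2 hπ hV fun y => ?_
  simp only [unpair_pairBits, U2.map_fst_zip_replicate]
  constructor
  · rintro ⟨x, hx, hxS⟩
    rw [hL x, hx] at hxS
    obtain ⟨w, hw, hq⟩ := hxS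
    refine ⟨pairBits w x, ?_, ?_⟩
    · rw [Pool.Agent.H620R2.Gauge.length_pairBits]
      omega
    · rw [unpair_pairBits]
      dsimp only
      rw [List.take_of_length_le hw, LangSig.fit_eq hx]
      exact hq
  · rintro ⟨w, _, hq⟩
    refine ⟨LangSig.fit y (unpair w).2, LangSig.length_fit _ _, ?_⟩
    rw [hL, LangSig.length_fit]
    exact ⟨(unpair w).1.take (p.eval y.length), by simp, hq⟩

end Pool.Agent.J6H49.BI
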