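import Pool.Agent.J6H7.RO.Meas

/-!
# Resampling finitely many bits of a random oracle of constant density
-/

set_option autoImplicit false

namespace Pool.Agent.J6H49.BI

open MeasureTheory Pool.Agent.NPC Pool.Agent.H620R2.Gauge Pool.Agent.H591R3.PHG H568R2
open Pool.Agent.J6H7.RO

variable {q : unitInterval}

theorem prob_ovw_c {I : Type} [Fintype I] [DecidableEq I] {pos : I → List Bool}
    (hpos : Function.Injective pos) {S : Set Oracle} (hS : MeasurableSet S) :
    prob (fun _ => q) S = Ex (ber q) (fun ω : I → Bool =>
      prob (fun _ => q) {A | ovw pos ω A ∈ S}) := by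
  classical
  rw [prob_resample (fun _ => q) hS (Finset.univ.image pos)]
  unfold Ex
  symm
  refine Finset.sum_bij' (fun ω _ => (Finset.univ.filter fun i => ω i = true).image pos)
    (fun T _ => fun i => decide (pos i ∈ T)) ?_ ?_ ?_ ?_ ?_
  · intro ω _
    rw [Finset.mem_powerset]
    exact Finset.image_subset_image (Finset.subset_univ _)
  · intro T _
    exact Finset.mem_univ _
  · intro ω _
    funext i
    have h1 : pos i ∈ (Finset.univ.filter fun i => ω i = true).image pos ↔ ω i = true := by
      rw [Finset.mem_image]
      constructor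
      · rintro ⟨i', h1, h2⟩
        rw [← hpos h2]
        exact (Finset.mem_filter.1 h1).2
      · intro h
        exact ⟨i, Finset.mem_filter.2 ⟨Finset.mem_univ _, h⟩, rfl⟩
    show decide _ = ω i
    cases h : ω i
    · rw [decide_eq_false_iff_not, h1, h]
      simp
    · rw [decide_eq_true_eq, h1, h]
  · intro T hT
    rw [Finset.mem_powerset] at hT
    ext x
    rw [Finset.mem_image]
    constructor
    · rintro ⟨i, h1, rfl⟩
      simpa using (Finset.mem_filter.1 h1).2
    · intro hx
      obtain ⟨i, _, hi⟩ := Finset.mem_image.1 (hT hx)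
      exact ⟨i, Finset.mem_filter.2 ⟨Finset.mem_univ _, by simpa [hi] using hx⟩, hi⟩
  · intro ω _
    rw [Finset.prod_image (fun i _ j _ h => hpos h)]
    congr 1
    · refine Finset.prod_congr rfl fun i _ => ?_
      congr 1
      have h1 : pos i ∈ (Finset.univ.filter fun i => ω i = true).image pos ↔ ω i = true := by
        rw [Finset.mem_image]
        constructor
        · rintro ⟨i', h1, h2⟩
          rw [← hpos h2]
          exact (Finset.mem_filter.1 h1).2
        · intro h
          exact ⟨i, Finset.mem_filter.2 ⟨Finset.mem_univ _, h⟩, rfl⟩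
      cases h : ω i
      · symm
        rw [decide_eq_false_iff_not, h1, h]
        simp
      · symm
        rw [decide_eq_true_eq, h1, h]
    · refine congrArg (prob (fun _ => q)) (Set.ext fun A => ?_)
      show _ ↔ ow _ _ A ∈ S
      rw [ovw_eq hpos]
      rfl

open Classical in
theorem prob_integral {I : Type} [Fintype I] [DecidableEq I] {pos : I → List Bool}
    (hpos : Function.Injective pos) {S : Set Oracle} (hS : MeasurableSet S) :
    Integrable (fun A : Oracle => Ex (ber q)
      (fun ω : I → Bool => if ovw pos ω A ∈ S then (1 : ℝ) else 0)) (randomOracle fun _ => q) ∧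
    prob (fun _ => q) S = ∫ A, Ex (ber q)
      (fun ω : I → Bool => if ovw pos ω A ∈ S then (1 : ℝ) else 0)
        ∂(randomOracle fun _ => q) := by
  have e1 : ∀ ω : I → Bool, prob (fun _ => q) {A | ovw pos ω A ∈ S} =
      ∫ A, (if ovw pos ω A ∈ S then (1 : ℝ) else 0) ∂(randomOracle fun _ => q) := by
    intro ω
    have hm : MeasurableSet {A | ovw pos ω A ∈ S} := measurable_ovw hpos ω hS
    have h2 := integral_indicator_one (μ := randomOracle fun _ => q) hm
    rw [prob, ← h2]
    refine integral_congr_ae (Filter.Eventually.of_forall fun A => ?_)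
    show Set.indicator _ _ A = _
    rw [Set.indicator_apply]
    rfl
  have hint : ∀ ω : I → Bool, Integrable
      (fun A => (if ovw pos ω A ∈ S then (1 : ℝ) else 0)) (randomOracle fun _ => q) := by
    intro ω
    have hm : MeasurableSet {A | ovw pos ω A ∈ S} := measurable_ovw hpos ω hS
    have h2 : Integrable (Set.indicator {A | ovw pos ω A ∈ S} (1 : Oracle → ℝ))
        (randomOracle fun _ => q) := (integrable_const (1 : ℝ)).indicator hm
    refine h2.congr (Filter.Eventually.of_forall fun A => ?_)
    show Set.indicator _ _ A = _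
    rw [Set.indicator_apply]
    rfl
  constructor
  · unfold Ex
    exact integrable_finsetSum _ fun ω _ => (hint ω).const_mul _
  · rw [prob_ovw_c hpos hS]
    unfold Ex
    rw [integral_finsetSum _ fun ω _ => (hint ω).const_mul _]
    refine Finset.sum_congr rfl fun ω _ => ?_
    show (∏ i, ber q (ω i)) * prob (fun _ => q) {A | ovw pos ω A ∈ S} = _
    rw [integral_const_mul, e1]

open Classical in
/-- comparison of two conditional probabilities -/
theorem prob_le_of_ovw2 {I : Type} [Fintype I] [DecidableEq I] {pos : I → List Bool}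
    (hpos : Function.Injective pos) {S S' : Set Oracle} (hS : MeasurableSet S)
    (hS' : MeasurableSet S') {κ ε : ℝ}
    (h : ∀ A, Ex (ber q) (fun ω : I → Bool => if ovw pos ω A ∈ S then (1 : ℝ) else 0) ≤
      κ * Ex (ber q) (fun ω : I → Bool => if ovw pos ω A ∈ S' then (1 : ℝ) else 0) + ε) :
    prob (fun _ => q) S ≤ κ * prob (fun _ => q) S' + ε := by
  obtain ⟨h1, h2⟩ := prob_integral (q := q) hpos hS
  obtain ⟨h3, h4⟩ := prob_integral (q := q) hpos hS'
  have h5 : ∫ _A : Oracle, ε ∂(randomOracle fun _ => q) = ε := by simp
  have h6 : κ * (∫ A, Ex (ber q) (fun ω : I → Bool => if ovw pos ω A ∈ S' then (1 : ℝ) else 0)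
      ∂(randomOracle fun _ => q)) + ε = ∫ A, (κ * Ex (ber q)
        (fun ω : I → Bool => if ovw pos ω A ∈ S' then (1 : ℝ) else 0) + ε)
          ∂(randomOracle fun _ => q) := by
    rw [integral_add (h3.const_mul κ) (integrable_const ε), integral_const_mul, h5]
  rw [h2, h4, h6]
  refine integral_mono h1 ((h3.const_mul κ).add (integrable_const ε)) fun A => ?_
  exact h A

end Pool.Agent.J6H49.BI
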