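import Pool.Agent.J6H49.BI.Table
import Pool.Agent.J6H49.BI.Msr
import Pool.Agent.J6H49.PHC.Defs

/-!
# The first accepted length says little about the value of the tree
-/

set_option autoImplicit false

namespace Pool.Agent.J6H49.BI

open Pool.Agent.NPC Finset H568R2 Pool.Agent.H676 Pool.Agent.H620R2.Gauge Pool.Agent.H591R3.PHG
open Pool.Agent.J6H7.RO MeasureTheory Filter LangTrAux
open Pool.Agent.J6H49.PHC (mix mix_pre mix_off smp_mix quant_congr)

/-- The oracle `O A` contains `A` and further information about `A`, which comes late: the other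
strings of length at most `N ^ c` depend on the strings of length less than `N` of `A` only. -/
structure LateP (pre : List Bool) (O : Oracle → Oracle) : Prop where
  /-- the marker is not empty -/
  ne : pre ≠ []
  /-- the strings with the prefix `pre` are the strings of `A` -/
  direct : ∀ A x, O A (pre ++ x) = A x
  /-- measurability -/
  meas : MO O
  /-- the other strings of polynomial length do not depend on the long strings of `A` -/
  slow : ∀ c : ℕ, ∀ᶠ N : ℕ in atTop, ∀ A A' : Oracle,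
    (∀ u : List Bool, u.length < N → A u = A' u) →
      ∀ q : List Bool, q.length ≤ N ^ c → (∀ x, q ≠ pre ++ x) → O A q = O A' q

theorem eval_le_self_pow (P : Polynomial ℕ) :
    ∃ c : ℕ, ∀ᶠ N : ℕ in atTop, P.eval N ≤ N ^ c := by
  refine ⟨P.natDegree + 1, ?_⟩
  filter_upwards [eventually_ge_atTop (max 1 (P.eval 1))] with N hN
  have h1 : 1 ≤ N := (le_max_left _ _).trans hN
  have h2 : P.eval 1 ≤ N := (le_max_right _ _).trans hN
  refine (eval_le_pow _ h1).trans ?_
  rw [pow_succ, mul_comm]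
  exact Nat.mul_le_mul_left _ h2

theorem out_mixP {pre : List Bool} {O : Oracle → Oracle} (hO : LateP pre O) (M : Alg)
    (P : Polynomial ℕ) : ∀ᶠ N : ℕ in atTop, ∀ A B : Oracle,
      (∀ u : List Bool, u.length < N → B u = A u) → ∀ y : List Bool,
        y.length ≤ P.eval N → outV M (O B) y = outV M (mix pre O A B) y := by
  obtain ⟨qb, hqb⟩ := Alg.out_local M
  obtain ⟨c, hc⟩ := eval_le_self_pow (qb.comp P)
  filter_upwards [hc, hO.slow c] with N h1 h2 A B hB y hy
  obtain ⟨Q, _, hQ2, hQ3⟩ := hqb (mix pre O A B) y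
  have h3 : M.out (O B) y = M.out (mix pre O A B) y := by
    refine hQ3 _ fun q hq => ?_
    by_cases hpre : ∃ x, q = pre ++ x
    · obtain ⟨x, rfl⟩ := hpre
      rw [hO.direct, mix_pre]
    · push Not at hpre
      rw [mix_off O A B hpre]
      refine h2 B A hB q ?_ hpre
      refine (hQ2 q hq).trans (le_trans ?_ h1)
      rw [Polynomial.eval_comp]
      exact eval_mono _ hy
  unfold outV
  rw [h3]

/-- the input of a given length for the algorithms -/
def tl (N : ℕ) : List Bool := List.replicate N true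

/-- the length `N` is accepted -/
def Acc (k : ℕ) (O : Oracle → Oracle) (M : Alg) (m N : ℕ) : Set Oracle :=
  {A | Quant m (outV M (O A)) k true (tl N)}

/-- the length `N` is the first accepted length from `lo` on -/
def FA (k : ℕ) (O : Oracle → Oracle) (M : Alg) (m lo N : ℕ) : Set Oracle :=
  {A | A ∈ Acc k O M m N ∧ ∀ j < N, lo ≤ j → A ∉ Acc k O M m j}

/-- the value of the tree of the length `N` is `b` -/
def Rt (k N : ℕ) (b : Bool) : Set Oracle := {A | inp k N ∈ lang k A ↔ b = false}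

theorem meas_acc {O : Oracle → Oracle} (hO : MO O) (k : ℕ) (M : Alg) (m N : ℕ) :
    MeasurableSet (Acc k O M m N) := meas_quant hO M m k true (tl N)

theorem meas_fa {O : Oracle → Oracle} (hO : MO O) (k : ℕ) (M : Alg) (m lo N : ℕ) :
    MeasurableSet (FA k O M m lo N) := by
  have : FA k O M m lo N = Acc k O M m N ∩ ⋂ j : ℕ, {A | j < N → lo ≤ j → A ∉ Acc k O M m j} := by
    ext A
    simp [FA]
  rw [this]
  refine (meas_acc hO k M m N).inter (MeasurableSet.iInter fun j => ?_)
  by_cases h1 : j < N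
  · by_cases h2 : lo ≤ j
    · simp only [h1, h2, true_imp_iff]
      exact (meas_acc hO k M m j).compl
    · simp only [h2, false_imp_iff, imp_true_iff]
      exact MeasurableSet.const _
  · simp only [h1, false_imp_iff]
    exact MeasurableSet.const _

theorem MO_id : MO (fun A => A) := by
  intro q b
  have h0 : Measurable (fun A : Oracle => A q) := measurable_pi_apply q
  exact h0 (MeasurableSet.singleton b)

theorem meas_rt (k N : ℕ) (b : Bool) : MeasurableSet (Rt k N b) := by
  refine meas_iff ?_ (MeasurableSet.const (b = false))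
  exact meas_lang MO_id k (inp k N)

/-- the positions of the random bits of the tree of the length `N` -/
noncomputable def posn (k N : ℕ) : Idx Unit (64 * uu N :: pw (par k N)) → List Bool := fun g =>
  addr (fun _ : Unit => inp k N) (par k N) g.1 ++ List.replicate g.2.val true

theorem posn_inj {k N : ℕ} (h : parLen k N ≤ N) : Function.Injective (posn k N) :=
  leaf_inj (fun _ : Unit => inp k N) (Function.injective_of_subsingleton _) N
    (fun _ => length_inp h) (par k N) (64 * uu N)

theorem posn_len {k N : ℕ} (h : parLen k N ≤ N) (g : Idx Unit (64 * uu N :: pw (par k N))) :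
    N ≤ (posn k N g).length := by
  unfold posn
  rw [List.length_append, length_addr (fun _ : Unit => inp k N) N (fun _ => length_inp h)]
  omega

theorem posn_len2 {k N : ℕ} (h : 2 * parLen k N ≤ N)
    (g : Idx Unit (64 * uu N :: pw (par k N))) : (posn k N g).length < 2 * N := by
  have h1 := leaf_len (fun _ : Unit => inp k N) N (fun _ => length_inp (by omega)) (par k N)
    (64 * uu N) g
  unfold parLen at h
  have : (posn k N g).length ≤ N + (par k N).sum + 64 * uu N := h1
  omega

theorem rt_ovw {k N : ℕ} (hu : 1 ≤ uu N) (h : parLen k N ≤ N)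
    (ω : Idx Unit (64 * uu N :: pw (par k N)) → Bool) (A : Oracle) (b : Bool) :
    ovw (posn k N) ω A ∈ Rt k N b ↔
      Tr (64 * uu N :: pw (par k N)) (val (fun _ => none) ω) () = b := by
  have h1 := mem_lang_iff (X := Unit) (ovw (posn k N) ω A) k (par k N) (par_spec hu).1
    (64 * uu N) (fun _ => List.replicate (N - parLen k N) false) ()
  have h2 : leaves (fun _ : Unit => enc (par k N) (64 * uu N)
      (List.replicate (N - parLen k N) false)) (par k N) (64 * uu N) (ovw (posn k N) ω A) =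
      val (fun _ => none) ω := by
    funext g
    show ovw (posn k N) ω A (posn k N g) = ω g
    exact ovw_pos (posn_inj h) ω A g
  rw [h2] at h1
  show (inp k N ∈ lang k (ovw (posn k N) ω A) ↔ b = false) ↔ _
  have h3 : inp k N ∈ lang k (ovw (posn k N) ω A) ↔
      Tr (64 * uu N :: pw (par k N)) (val (fun _ => none) ω) () = false := h1
  rw [h3]
  generalize Tr (64 * uu N :: pw (par k N)) (val (fun _ => none) ω) () = v
  cases v <;> cases b <;> simp

/-- the fair coin -/
noncomputable def fair : unitInterval := ⟨1 / 2, by norm_num, by norm_num⟩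

theorem num_bound {k u P N : ℕ} (hu : 2 ≤ u) (hk : k ≤ 2 ^ u) (hP : P + 2 ≤ 2 ^ u)
    (hN : N ^ 2 ≤ 2 ^ u) (hN0 : 1 ≤ N) :
    (k : ℝ) * (2 ^ (P + 2) * (1 / 2) ^ (2 ^ (2 * u) + 1)) + 5 / 2 ^ (16 * u) ≤ 1 / (N : ℝ) ^ 2 := by
  have hkr : (k : ℝ) ≤ 2 ^ u := by exact_mod_cast hk
  have h1 : (1 : ℝ) / 2 ^ u ≤ 1 / (N : ℝ) ^ 2 := by
    apply one_div_le_one_div_of_le
    · have : (0 : ℝ) < N := by exact_mod_cast hN0
      positivity
    · exact_mod_cast hN
  refine le_trans ?_ h1
  have h4 : 4 ≤ 2 ^ u := by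
    calc 4 = 2 ^ 2 := by norm_num
      _ ≤ 2 ^ u := Nat.pow_le_pow_right (by norm_num) hu
  have hu3 : 2 * u ≤ 2 ^ u := by
    obtain ⟨v, rfl⟩ : ∃ v, u = v + 1 := ⟨u - 1, by omega⟩
    have : v + 1 ≤ 2 ^ v := Nat.lt_two_pow_self
    rw [pow_succ]
    omega
  have h2u : 2 ^ (2 * u) = 2 ^ u * 2 ^ u := by rw [← pow_add]; congr 1; ring
  have h5 : u + (P + 2) + 2 * u + 1 ≤ 2 ^ (2 * u) + 1 := by
    rw [h2u]
    nlinarith
  have h6 : (k : ℝ) * (2 ^ (P + 2) * (1 / 2) ^ (2 ^ (2 * u) + 1)) ≤ 1 / 2 * (1 / 2 ^ u) := by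
    obtain ⟨d, hd⟩ := Nat.exists_eq_add_of_le h5
    rw [hd]
    calc (k : ℝ) * (2 ^ (P + 2) * (1 / 2) ^ (u + (P + 2) + 2 * u + 1 + d))
        ≤ 2 ^ u * (2 ^ (P + 2) * (1 / 2) ^ (u + (P + 2) + 2 * u + 1 + d)) :=
          mul_le_mul_of_nonneg_right hkr (by positivity)
      _ = ((2 : ℝ) * (1 / 2)) ^ u * (2 * (1 / 2)) ^ (P + 2) *
          ((1 / 2) ^ (2 * u + 1 + d)) := by
          rw [mul_pow, mul_pow]
          ring
      _ = (1 / 2) ^ (2 * u + 1 + d) := by norm_num
      _ ≤ (1 / 2) ^ (u + 1) := pow_le_pow_of_le_one (by norm_num) (by norm_num) (by omega)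
      _ = 1 / 2 * (1 / 2 ^ u) := by rw [pow_succ, one_div_pow]; ring
  have h7 : (5 : ℝ) / 2 ^ (16 * u) ≤ 1 / 2 * (1 / 2 ^ u) := by
    have h8 : (16 : ℝ) ≤ 2 ^ (2 * u) := by
      calc (16 : ℝ) = 2 ^ 4 := by norm_num
        _ ≤ 2 ^ (2 * u) := pow_le_pow_right₀ (by norm_num) (by omega)
    have h9 : (16 : ℝ) * 2 ^ u ≤ 2 ^ (16 * u) := by
      calc (16 : ℝ) * 2 ^ u ≤ 2 ^ (2 * u) * 2 ^ u := by
            exact mul_le_mul_of_nonneg_right h8 (by positivity)
        _ = 2 ^ (3 * u) := by rw [← pow_add]; congr 1; ring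
        _ ≤ 2 ^ (16 * u) := pow_le_pow_right₀ (by norm_num) (by omega)
    rw [div_mul_div_comm, one_mul, div_le_div_iff₀ (by positivity) (by positivity)]
    have h10 : (0 : ℝ) < 2 ^ u := by positivity
    nlinarith
  linarith

open Classical in
/-- **The correlation bound for random oracles.** -/
theorem corr {pre : List Bool} {O : Oracle → Oracle} (hO : LateP pre O) (k : ℕ) (M : Alg)
    (P : Polynomial ℕ) : ∀ᶠ N : ℕ in atTop, ∀ (m lo : ℕ) (b : Bool) (H : Set Oracle),
      MeasurableSet H → (∀ A A' : Oracle, (∀ u : List Bool, u.length < N → A u = A' u) →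
        (A ∈ H ↔ A' ∈ H)) → N + k * (2 * m + 1) ≤ P.eval N →
      prob (fun _ => fair) (H ∩ FA k O M m lo N ∩ Rt k N (!b)) ≤
        (1 - 1 / 256) * prob (fun _ => fair) (H ∩ FA k O M m lo N) + 1 / (N : ℝ) ^ 2 := by
  filter_upwards [out_mixP hO M P, ev_par k, ev_uu 2,
    ev_poly (M.p.comp P + (P + 2) + (Polynomial.X ^ 2) + (Polynomial.X + 1) + Polynomial.C k),
    eventually_ge_atTop 1] with N h1 h2 h3 h4 h5 m lo b H hH hinv hP
  obtain ⟨hu1, hpar⟩ := h2
  have hpar' : parLen k N ≤ N := by omega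
  simp only [Polynomial.eval_add, Polynomial.eval_comp, Polynomial.eval_pow, Polynomial.eval_X,
    Polynomial.eval_one, Polynomial.eval_C, Polynomial.eval_ofNat] at h4
  obtain ⟨S1, hS1⟩ : ∃ S : Set Oracle, S = H ∩ FA k O M m lo N ∩ Rt k N (!b) := ⟨_, rfl⟩
  obtain ⟨S2, hS2⟩ : ∃ S : Set Oracle, S = H ∩ FA k O M m lo N := ⟨_, rfl⟩
  have hmS2 : MeasurableSet S2 := hS2 ▸ hH.inter (meas_fa hO.meas k M m lo N)
  have hmS1 : MeasurableSet S1 := by
    rw [hS1, ← hS2]
    exact hmS2.inter (meas_rt k N (!b))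
  rw [← hS1, ← hS2]
  have m2 : ∀ B, B ∈ S2 ↔ (B ∈ H ∧ B ∈ FA k O M m lo N) := fun B => by rw [hS2]; rfl
  have m1 : ∀ B, B ∈ S1 ↔ ((B ∈ H ∧ B ∈ FA k O M m lo N) ∧ B ∈ Rt k N (!b)) :=
    fun B => by rw [hS1]; rfl
  refine prob_le_of_ovw2 (posn_inj hpar') hmS1 hmS2 fun A => ?_
  -- the changed oracles agree with `A` below `N`
  have hoff : ∀ (ω : Idx Unit (64 * uu N :: pw (par k N)) → Bool) (x : List Bool),
      x.length < N → ovw (posn k N) ω A x = A x := by
    intro ω x hx
    exact ovw_off _ _ fun i hi => by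
      have := posn_len hpar' i
      rw [hi] at this
      omega
  have hHi : ∀ ω : Idx Unit (64 * uu N :: pw (par k N)) → Bool,
      (ovw (posn k N) ω A ∈ H ↔ A ∈ H) := fun ω => hinv _ _ (hoff ω)
  have hε : (0 : ℝ) ≤ 1 / (N : ℝ) ^ 2 := by positivity
  by_cases hA : A ∈ H
  swap
  · have n1 : ∀ ω : Idx Unit (64 * uu N :: pw (par k N)) → Bool,
        ¬ (ovw (posn k N) ω A ∈ S1) := fun ω h => hA ((hHi ω).1 ((m1 _).1 h).1.1)
    have n2 : ∀ ω : Idx Unit (64 * uu N :: pw (par k N)) → Bool,
        ¬ (ovw (posn k N) ω A ∈ S2) := fun ω h => hA ((hHi ω).1 ((m2 _).1 h).1)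
    simp only [n1, n2, if_false]
    rw [Ex_const (ber_sum_m _), mul_zero, zero_add]
    exact hε
  -- the formulas
  set F : List Bool → (Idx Unit (64 * uu N :: pw (par k N)) → Bool) → Bool :=
    lf M (fun v => mix pre O A (ovw (posn k N) v A)) with hF
  set K : (Fin (N + 1) → Bool) → Prop := fun v => v (Fin.last N) = true ∧
    ∀ j : Fin (N + 1), j.val < N → lo ≤ j.val → v j = false with hK
  have hacc : ∀ (ω : Idx Unit (64 * uu N :: pw (par k N)) → Bool) (j : ℕ), j ≤ N →
      (ovw (posn k N) ω A ∈ Acc k O M m j ↔ QF m F k true (tl j) ω = true) := by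
    intro ω j hj
    rw [← quant_lf M (fun v : Idx Unit (64 * uu N :: pw (par k N)) → Bool =>
      mix pre O A (ovw (posn k N) v A)) m ω k true (tl j)]
    refine quant_congr k true (tl j) fun y' hy' => ?_
    rw [h1 A (ovw (posn k N) ω A) (hoff ω) y' (by
      refine hy'.trans (le_trans ?_ hP)
      unfold tl
      rw [List.length_replicate]
      omega)]
  have hfa : ∀ ω : Idx Unit (64 * uu N :: pw (par k N)) → Bool,
      (ovw (posn k N) ω A ∈ FA k O M m lo N ↔ K fun j => QF m F k true (tl j.val) ω) := by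
    intro ω
    show (_ ∈ Acc k O M m N ∧ ∀ j < N, lo ≤ j → _ ∉ Acc k O M m j) ↔ _
    rw [hacc ω N le_rfl]
    refine and_congr Iff.rfl ?_
    constructor
    · intro h j hj hlo
      have := h j.val hj hlo
      rw [hacc ω j.val hj.le] at this
      simpa using this
    · intro h j hj hlo
      rw [hacc ω j hj.le]
      have := h ⟨j, by omega⟩ hj hlo
      simpa using this
  obtain ⟨_, _, hcore⟩ := par_spec (k := k) (N := N) hu1
  have hb := hcore (Fin (N + 1)) (by rw [Fintype.card_fin]; omega) b K m N F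
    (fun y hy => by
      have hsm : Smp (fun z : Idx Unit (64 * uu N :: pw (par k N)) → Bool =>
        mix pre O A (ovw (posn k N) z A)) := smp_mix (posn_inj hpar') pre O A (fun b => b)
      refine dtr_lf hsm M y ?_
      have h6 : M.p.eval y.length ≤ M.p.eval (P.eval N) := eval_mono _ (hy.trans hP)
      have h7 : 2 ^ uu N ≤ 2 ^ (2 * uu N) := Nat.pow_le_pow_right (by norm_num) (by omega)
      omega)
    (fun j => tl j.val) (fun j => by
      unfold tl
      rw [List.length_replicate]
      have := j.isLt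
      omega) true
  have hnum := num_bound (k := k) (u := uu N) (P := N + k * (2 * m + 1)) (N := N) h3 (by omega)
    (by omega) (by omega) h5
  have hb2 := hb.trans hnum
  -- the two expectations
  have hlin : Ns (1 / 2) (1 / 256) (64 * uu N :: pw (par k N)) (fun _ => none) b K
      (fun j => QF m F k true (tl j.val)) =
      Ex (ber (1 / 2)) (fun ω : Idx Unit (64 * uu N :: pw (par k N)) → Bool =>
        if ovw (posn k N) ω A ∈ S1 then (1 : ℝ) else 0) +
      (-(1 - 1 / 256)) * Ex (ber (1 / 2)) (fun ω : Idx Unit (64 * uu N :: pw (par k N)) → Bool =>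
        if ovw (posn k N) ω A ∈ S2 then (1 : ℝ) else 0) := by
    rw [← Ex_smul, ← Ex_add]
    unfold Ns
    congr 1
    funext ω
    have hrt := rt_ovw hu1 hpar' ω A (!b)
    have hne : (Tr (64 * uu N :: pw (par k N)) (val (fun _ => none) ω) () ≠ b) ↔
        Tr (64 * uu N :: pw (par k N)) (val (fun _ => none) ω) () = !b := by
      generalize Tr (64 * uu N :: pw (par k N)) (val (fun _ => none) ω) () = v
      cases v <;> cases b <;> simp
    by_cases hf : ovw (posn k N) ω A ∈ FA k O M m lo N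
    · have hKt := (hfa ω).1 hf
      have hm : ovw (posn k N) ω A ∈ S2 := (m2 _).2 ⟨(hHi ω).2 hA, hf⟩
      rw [if_pos hKt, if_pos hm]
      by_cases hr : ovw (posn k N) ω A ∈ Rt k N (!b)
      · rw [if_pos (hne.2 (hrt.1 hr)), if_pos ((m1 _).2 ⟨(m2 _).1 hm, hr⟩)]
        ring
      · rw [if_neg (fun h => hr (hrt.2 (hne.1 h))), if_neg (fun h => hr ((m1 _).1 h).2)]
        ring
    · rw [if_neg (fun h => hf ((hfa ω).2 h)), if_neg (fun h => hf ((m1 _).1 h).1.2),
        if_neg (fun h => hf ((m2 _).1 h).2)]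
      ring
  have hfair : (fair : ℝ) = 1 / 2 := rfl
  rw [hfair]
  rw [hlin] at hb2
  linarith

end Pool.Agent.J6H49.BI
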