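import Pool.Agent.J6H49.BI.Windows
import Pool.Agent.J6H49.PHC.Coded

/-!
# Bi-immune sets at every level
-/

set_option autoImplicit false

namespace Pool.Agent.J6H49.BI

open Pool.Agent.NPC Pool.Agent.H620R2.Gauge Pool.Agent.H622R2 Pool.Agent.H591R3.PHG
open Pool.Agent.J6H7.RO (MO randomOracle outV gtrunc poly_gtrunc quant_gtrunc)
open MeasureTheory Filter
open Pool.Agent.TH678.GC (join)
open Pool.Agent.TH678.RS (InTime bt bt_mono bt_pow)
open Pool.Agent.Y626.WX (Cp cod agree_emb loc_emb exists_cp time_coded)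
open Pool.Agent.J6H49.PHC (far join_agree)

/-- the bounds of the quantified strings may be larger -/
theorem exists_uniform {B : Oracle} {k : ℕ} {S : Set (List Bool)} (hS : IsSig B k S) :
    ∃ (M : Alg) (p : Polynomial ℕ), ∀ N m' : ℕ, p.eval N ≤ m' →
      (tl N ∈ S ↔ Quant m' (outV M B) k true (tl N)) := by
  obtain ⟨V, p, hV, hL⟩ := hS
  have hμ : UPoly (fun y : List Bool => p.eval y.length) := UPoly.eval (UPoly.length Poly.id) p
  have hF : IsFP B (fun z => V (gtrunc (fun y => p.eval y.length) (fun y => y) k z).2) :=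
    hV.precomp (Poly.snd (poly_gtrunc hμ Poly.id k))
  obtain ⟨M, hM⟩ := hF
  refine ⟨M, p, fun N m' hm => ?_⟩
  have hV' : outV M B = fun z => V (gtrunc (fun y => p.eval y.length) (fun y => y) k z).2 := by
    funext y
    unfold outV
    rw [hM]
    rfl
  have hlen : (tl N).length = N := by unfold tl; simp
  rw [hV', hL (tl N), hlen]
  have h := quant_gtrunc (fun y => p.eval y.length) (fun y => y) V hm k 0 true (tl N) (tl N) (by
    show (List.replicate (p.eval (tl N).length) (), tl N) = _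
    rw [hlen])
  rw [zero_add] at h
  exact h

/-- infinitely many accepted lengths -/
theorem ae_main {pre : List Bool} {O : Oracle → Oracle} (hO : LateP pre O) :
    ∀ᵐ A ∂(randomOracle fun _ => fair), ∀ (k : ℕ) (S : Set (List Bool)), IsSig (O A) k S →
      {N : ℕ | tl N ∈ S}.Infinite → ∀ b : Bool, ∃ N, parLen k N ≤ N ∧ tl N ∈ S ∧
        A ∈ Rt k N b := by
  have h1 : ∀ᵐ A ∂(randomOracle fun _ => fair), ∀ (k : ℕ) (M : Alg) (p₁ : Polynomial ℕ) (b : Bool),
      ∃ w₀ c : ℕ, Wnd pre k O M p₁ w₀ c ∧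
      ((∃ᶠ i : ℕ in atTop, A ∈ AccW k O M p₁ w₀ c i) →
    ∃ i N, W w₀ c i ≤ N ∧ N < W w₀ c (i + 1) ∧
      A ∈ Acc k O M (p₁.eval (W w₀ c (i + 1))) N ∧ A ∈ Rt k N b) := by
    rw [ae_all_iff]
    intro k
    rw [ae_all_iff]
    intro M
    rw [ae_all_iff]
    intro p₁
    rw [ae_all_iff]
    intro b
    obtain ⟨w₀, c, hw⟩ := exists_wnd hO k M p₁
    filter_upwards [ae_hit hw hO.meas b] with A hA
    exact ⟨w₀, c, hw, hA⟩
  filter_upwards [h1] with A hA k S hS hinf b
  obtain ⟨M, p, hM⟩ := exists_uniform hS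
  obtain ⟨w₀, c, hw, h2⟩ := hA k M p b
  have hacc : ∀ i N, N < W w₀ c (i + 1) →
      (tl N ∈ S ↔ A ∈ Acc k O M (p.eval (W w₀ c (i + 1))) N) := fun i N hN =>
    hM N _ (eval_mono _ hN.le)
  obtain ⟨i, N, h3, h4, h5, h6⟩ := h2 (by
    rw [frequently_atTop]
    intro i₀
    obtain ⟨N, hN, hN2⟩ := hinf.exists_gt (W w₀ c i₀)
    have h7 : w₀ ≤ N := (W_zero_le hw.hw hw.hc i₀).trans hN2.le
    obtain ⟨i, h8, h9⟩ := exists_window hw.hw hw.hc h7
    refine ⟨i, ?_, N, h8, h9, (hacc i N h9).1 hN⟩
    by_contra hlt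
    push Not at hlt
    have h10 : W w₀ c (i + 1) ≤ W w₀ c i₀ := (W_mono hw.hw hw.hc).monotone (by omega)
    omega)
  refine ⟨N, ?_, (hacc i N h4).2 h5, h6⟩
  have := (hw.par N ((W_zero_le hw.hw hw.hc i).trans h3)).2
  omega

/-- the value of the tree and the language -/
theorem mem_hardL_of_rt {k N : ℕ} (h : parLen k N ≤ N) {A : Oracle} {x : List Bool}
    (hx : x.length = N) {b : Bool} (hA : A ∈ Rt k N b) : x ∈ hardL k A ↔ b = false := by
  show inq k x.length ∈ lang k A ↔ _
  rw [hx, inq_eq h]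
  exact hA

/-- `L` is bi-immune for the level `Σ_k`: no infinite set of the level is contained in `L` or in
the complement of `L`. -/
theorem biimmune_of {k : ℕ} {B A : Oracle}
    (h : ∀ S : Set (List Bool), IsSig B (k + 1) S → {N : ℕ | tl N ∈ S}.Infinite → ∀ b : Bool,
      ∃ N, parLen (k + 1) N ≤ N ∧ tl N ∈ S ∧ A ∈ Rt (k + 1) N b) (S : Set (List Bool))
    (hS : IsSig B (k + 1) S) (hinf : S.Infinite) :
    ¬ S ⊆ hardL (k + 1) A ∧ ¬ S ⊆ (hardL (k + 1) A)ᶜ := by
  set S' : Set (List Bool) := {y | ∃ x : List Bool, x.length = y.length ∧ x ∈ S} with hS'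
  have hlen : ∀ N, (tl N).length = N := fun N => by unfold tl; simp
  have hinf' : {N : ℕ | tl N ∈ S'}.Infinite := by
    intro hfin
    apply hinf
    have hsub : S ⊆ ⋃ N ∈ {N : ℕ | tl N ∈ S'}, {x : List Bool | x.length = N} := by
      intro x hx
      simp only [Set.mem_iUnion]
      exact ⟨x.length, ⟨x, (hlen _).symm, hx⟩, rfl⟩
    exact (hfin.biUnion fun N _ => List.finite_length_eq Bool N).subset hsub
  have key : ∀ b, ∃ x ∈ S, (x ∈ hardL (k + 1) A ↔ b = false) := by
    intro b
    obtain ⟨N, h1, ⟨x, hx, hxS⟩, h3⟩ := h S' (isSig_tally hS) hinf' b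
    rw [hlen] at hx
    exact ⟨x, hxS, mem_hardL_of_rt h1 hx h3⟩
  constructor
  · intro hsub
    obtain ⟨x, hx, h1⟩ := key true
    have := h1.1 (hsub hx)
    exact Bool.noConfusion this
  · intro hsub
    obtain ⟨x, hx, h1⟩ := key false
    exact hsub hx (h1.2 rfl)

variable {g : ℕ → SAlg × Polynomial ℕ} {S : ℕ → Polynomial ℕ} {Φ : Oracle → Oracle}

/-- the oracle -/
noncomputable def oracle (Φ : Oracle → Oracle) (E₀ A : Oracle) : Oracle :=
  join (join (join A E₀) table) (cod Φ (join (join A E₀) table))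

theorem late_coded {α : ℕ → ℕ} (hα : Monotone α) (hα' : Tendsto α atTop atTop)
    (hc : Cp g S (bt α) Φ) (E₀ : Oracle) : LateP [false, false, false] (oracle Φ E₀) := by
  refine ⟨by simp, fun A x => rfl, fun q b => ?_, fun c => ?_⟩
  · refine Pool.Agent.H628R3.RO.measurableSet_of_loc
      (K := {u : List Bool | u.length ≤ q.length}) (List.finite_length_le Bool q.length) ?_
    intro A A' hA
    have h1 : oracle Φ E₀ A q = oracle Φ E₀ A' q := by
      refine loc_emb hc (ℓ := q.length) (fun u hu => ?_) q le_rfl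
      refine join_agree (L := q.length + 1) (fun v hv => ?_) u (by omega)
      refine join_agree (L := q.length + 1) (fun v hv => hA v (by
        show v.length ≤ q.length
        omega)) v hv
    show oracle Φ E₀ A q = b ↔ oracle Φ E₀ A' q = b
    rw [h1]
  · filter_upwards [far hα hα' c] with N hN A A' hA q hq hpre
    have h1 := agree_emb hc (L := N) (T := N ^ c) hN (A := join (join A E₀) table)
      (A' := join (join A' E₀) table) (join_agree (join_agree hA)) q hq
    show join (join (join A E₀) table) (cod Φ (join (join A E₀) table)) q =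
      join (join (join A' E₀) table) (cod Φ (join (join A' E₀) table)) q
    rw [h1]
    match q with
    | [] => rfl
    | false :: [] => rfl
    | false :: false :: [] => rfl
    | false :: false :: false :: x => exact absurd rfl (hpre x)
    | false :: false :: true :: x => rfl
    | false :: true :: x => rfl
    | true :: x => rfl

/-- **The main theorem.** -/
theorem main (α : ℕ → ℕ) (hα : Monotone α) (hα' : Tendsto α atTop atTop) :
    ∃ (T : Oracle) (E : Oracle → Oracle),
      (∀ B : Oracle, ∀ L, IsPSPACE (join B (E B)) L → InTime α (join B (E B)) L) ∧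
      ∀ E₀ : Oracle, ∀ᵐ A ∂(randomOracle fun _ => fair), ∀ k : ℕ, ∃ L : Set (List Bool),
          IsSig (join (join (join A E₀) T) (E (join (join A E₀) T))) (k + 2) L ∧
          ∀ S : Set (List Bool),
            IsSig (join (join (join A E₀) T) (E (join (join A E₀) T))) (k + 1) S → S.Infinite →
              ¬ S ⊆ L ∧ ¬ S ⊆ Lᶜ := by
  obtain ⟨g, hg⟩ := CC.exists_enum
  obtain ⟨S, Φ, hc⟩ := exists_cp g (bt α)
  refine ⟨table, cod Φ, fun B L hL => time_coded hg hα hc B hL, fun E₀ => ?_⟩
  filter_upwards [ae_main (late_coded hα hα' hc E₀)] with A hA k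
  refine ⟨hardL (k + 1) A, ?_, biimmune_of (hA (k + 1))⟩
  exact hardL_sig (pre := [false, false, false]) (pre' := [false, true]) (fun q => rfl)
    (fun q => rfl) (k + 1)

end Pool.Agent.J6H49.BI
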