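import Pool.Agent.H591R3.PHG.Main

/-!
# One root: small formulas do not know the value of the root

A correlation bound for the value of a single tree of gates NOR and any Boolean combination of
a few formulas with fewer alternations.
-/

set_option autoImplicit false

namespace Pool.Agent.J6H49.BI

open Finset H568R2 Pool.Agent.H676 Pool.Agent.H620R2.Gauge Pool.Agent.NPC Pool.Agent.H591R3.PHG

open Classical in
/-- The probability that `K` holds for the values of the formulas and the root is not `b`, minus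
`1 - cc` times the probability that `K` holds. -/
noncomputable def Ns {J : Type} (t cc : ℝ) (cs : List ℕ) (s : Idx Unit cs → Option Bool)
    (b : Bool) (K : (J → Bool) → Prop) (g : J → (Idx Unit cs → Bool) → Bool) : ℝ :=
  Ex (ber t) (fun z : Idx Unit cs → Bool => if K (fun j => g j z) then
    ((if Tr cs (val s z) () ≠ b then (1 : ℝ) else 0) - (1 - cc)) else 0)

theorem Ns_le_one {J : Type} {t cc : ℝ} (h0 : 0 ≤ t) (h1 : t ≤ 1) (hc1 : cc ≤ 1)
    (cs : List ℕ) (s : Idx Unit cs → Option Bool) (b : Bool) (K : (J → Bool) → Prop)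
    (g : J → (Idx Unit cs → Bool) → Bool) : Ns t cc cs s b K g ≤ 1 := by
  classical
  unfold Ns
  refine (Ex_mono (G := fun _ => (1 : ℝ)) (ber_nonneg_m h0 h1) fun z => ?_).trans
    (le_of_eq (Ex_const (ber_sum_m t) 1))
  split_ifs <;> linarith

/-- One level of the process. -/
theorem Ns_stage {J : Type} {c smin : ℕ} {t t' ξ cc : ℝ} (ht : 0 < t)
    (ht1 : t < 1) (ht' : 0 < t') (hs : 1 ≤ smin) (cs : List ℕ)
    (s : Idx Unit (c :: cs) → Option Bool) (b : Bool) (K : (J → Bool) → Prop)
    (g : J → (Idx Unit (c :: cs) → Bool) → Bool) :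
    Ns t cc (c :: cs) s b K g = ∑ ρ : Idx Unit cs → St c,
      wt (G := Idx Unit cs) t t' ξ smin s ρ *
      Ns t' cc cs (fun h => (ρ h).1) b K (fun j z => g j (XX (G := Idx Unit cs) s ρ z)) := by
  classical
  unfold Ns
  have h1 := stage (G := Idx Unit cs) (ξ := ξ) ht ht1 ht' hs s
    (fun z : Idx Unit cs × Fin c → Bool => if K (fun j => g j z) then
      ((if Tr (c :: cs) (val (I := Idx Unit cs × Fin c) s z) () ≠ b then (1 : ℝ) else 0) -
        (1 - cc)) else 0)
  refine Eq.trans ?_ (h1.trans ?_)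
  · rfl
  · refine Finset.sum_congr rfl fun ρ _ => ?_
    by_cases hρ : wt (G := Idx Unit cs) t t' ξ smin s ρ = 0
    · rw [hρ, zero_mul, zero_mul]
    · have h2 : ∀ z : Idx Unit cs → Bool,
          Tr (c :: cs) (val (I := Idx Unit cs × Fin c) s (XX s ρ z)) =
            Tr (X := Unit) cs (val (fun h => (ρ h).1) z) := by
        intro z
        show Tr cs (fun g => decide (∀ i : Fin c,
          val (I := Idx Unit cs × Fin c) s (XX s ρ z) (g, i) = false)) = _
        congr 1
        funext g'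
        exact val_stage (G := Idx Unit cs) s ρ hρ z g'
      simp only [h2]

theorem ngood_unit {c D : ℕ} {t cc : ℝ} {s : Unit × Fin c → Option Bool}
    (h : Good t cc D (fun i => s ((), i))) : ngood (X := Unit) (c := c) t cc D s = 1 := by
  classical
  unfold ngood
  rw [Finset.filter_true_of_mem (fun j _ => h)]
  rfl

theorem ngood_unit_lt {c D : ℕ} {t cc : ℝ} {s : Unit × Fin c → Option Bool} :
    ngood (X := Unit) (c := c) t cc D s < 1 ↔ ¬ Good t cc D (fun i => s ((), i)) := by
  classical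
  constructor
  · intro h hg
    rw [ngood_unit hg] at h
    omega
  · intro h
    unfold ngood
    rw [Finset.filter_false_of_mem (fun j _ => h)]
    simp

open Classical in
/-- a decision tree against one gate -/
theorem one_dt {J : Type} {c : ℕ} {t cc : ℝ} (ht : 0 ≤ t) (ht1 : t ≤ 1) (hcc : cc ≤ 1) (b : Bool) (K : (J → Bool) → Prop) (k : ℕ) :
    ∀ (s : Unit × Fin c → Option Bool) (f : (Unit × Fin c → Bool) → (J → Bool)),
      FinalAux.DTv k f → Good t cc k (fun i => s ((), i)) →
      Ex (ber t) (fun z : Unit × Fin c → Bool => if K (f z) then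
        ((if decide (∀ i : Fin c, val s z ((), i) = false) ≠ b then (1 : ℝ) else 0) -
          (1 - cc)) else 0) ≤ k * t := by
  have hc : ∀ (k : ℕ) (s : Unit × Fin c → Option Bool)
      (f : (Unit × Fin c → Bool) → (J → Bool)), (∃ c, ∀ x, f x = c) →
      Good t cc k (fun i => s ((), i)) →
      Ex (ber t) (fun z : Unit × Fin c → Bool => if K (f z) then
        ((if decide (∀ i : Fin c, val s z ((), i) = false) ≠ b then (1 : ℝ) else 0) -
          (1 - cc)) else 0) ≤ k * t := by
    rintro k s f ⟨v0, hf⟩ hg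
    have hkt : 0 ≤ (k : ℝ) * t := mul_nonneg (Nat.cast_nonneg k) ht
    simp only [hf]
    by_cases hK : K v0
    · simp only [if_pos hK]
      have h1 := FinalAux.base_case (X := Unit) (cc := cc) ht ht1 (fun _ => b) s
      rw [ngood_unit (FinalAux.good_mono ht ht1 (Nat.zero_le k) hg), pow_one] at h1
      have h2 := Ex_add (ber t) (fun z : Unit × Fin c → Bool =>
        (if decide (∀ i : Fin c, val s z ((), i) = false) ≠ b then (1 : ℝ) else 0))
        (fun _ => -(1 - cc))
      rw [Ex_const (FinalAux.ber_sum t)] at h2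
      have h3 : Ex (ber t) (fun z : Unit × Fin c → Bool =>
        (if decide (∀ i : Fin c, val s z ((), i) = false) ≠ b then (1 : ℝ) else 0)) ≤
          1 - cc := by
        refine le_trans (le_of_eq ?_) h1
        congr 1
        funext z
        refine if_congr ?_ rfl rfl
        constructor
        · intro h _ h'
          exact h h'.symm
        · intro h h'
          exact h () h'.symm
      have h4 : Ex (ber t) (fun z : Unit × Fin c → Bool =>
          (if decide (∀ i : Fin c, val s z ((), i) = false) ≠ b then (1 : ℝ) else 0) -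
            (1 - cc)) = _ := h2
      rw [h4]
      linarith
    · simp only [if_neg hK]
      rw [Ex_const (FinalAux.ber_sum t)]
      exact hkt
  induction k with
  | zero =>
    intro s f hf hg
    exact hc 0 s f hf hg
  | succ k ih =>
    intro s f hf hg
    rcases hf with hf | ⟨v, hf⟩
    · exact hc (k + 1) s f hf hg
    · rw [Ex_resample (FinalAux.ber_sum t) _ v, Ex_sum]
      simp only [Ex_smul, FinalAux.val_sb]
      rw [Fintype.sum_bool]
      have hF := ih (FinalAux.sb s v false) _ (hf false) (FinalAux.good_false ht ht1 s v () hg)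
      have hT : Ex (ber t) (fun z : Unit × Fin c → Bool => if K (f (Function.update z v true)) then
        ((if decide (∀ i : Fin c, val (FinalAux.sb s v true) z ((), i) = false) ≠ b
          then (1 : ℝ) else 0) - (1 - cc)) else 0) ≤ 1 := by
        refine (Ex_mono (G := fun _ => (1 : ℝ)) (ber_nonneg_m ht ht1) fun z => ?_).trans
          (le_of_eq (Ex_const (ber_sum_m t) 1))
        split_ifs <;> linarith
      have hbt : ber t true = t := by simp [ber]
      have hbf : ber t false = 1 - t := by simp [ber]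
      rw [hbt, hbf]
      have hA := mul_le_mul_of_nonneg_left hT ht
      have hB := mul_le_mul_of_nonneg_left hF (by linarith : (0 : ℝ) ≤ 1 - t)
      refine (add_le_add hA hB).trans ?_
      push_cast
      have h5 : 0 ≤ (k : ℝ) * t := mul_nonneg (Nat.cast_nonneg k) ht
      nlinarith [mul_nonneg h5 ht]

/-- All levels above the random bits. -/
theorem one_ind {J : Type} [Fintype J] [DecidableEq J] {n u D : ℕ} (hn : 5 ≤ n)
    (hu : 8 * u ≤ n) (hD : 2 ^ (2 * u) * Fintype.card J ≤ D) (b₀ : Bool)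
    (K : (J → Bool) → Prop) :
    ∀ (k : ℕ) (cs : List ℕ), cs.length = k + 1 → ∀ (s : Idx Unit cs → Option Bool) (m ℓ : ℕ)
      (F : List Bool → (Idx Unit cs → Bool) → Bool),
      (∀ y : List Bool, y.length ≤ ℓ + k * (2 * m + 1) → DTr (2 ^ (2 * u)) (F y)) →
      ∀ (y : J → List Bool), (∀ j, (y j).length ≤ ℓ) → ∀ b : Bool,
      Ns (1 / 2 ^ (4 * n)) (1 / 256) cs s b₀ K (fun j => QF m F k b (y j)) ≤
        k * (2 ^ (ℓ + k * (2 * m + 1) + 2) * (1 / 2) ^ (2 ^ (2 * u) + 1)) +
        D * (1 / 2 ^ (4 * n)) +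
        Wt (1 / 2 ^ (4 * n)) (1 / 2 ^ (2 * n)) (8 * n * 2 ^ (4 * n)) (1 / 256) D 1 cs s := by
  classical
  set t : ℝ := 1 / 2 ^ (4 * n) with ht
  set ξ : ℝ := 1 / 2 ^ (2 * n) with hξ
  set smin : ℕ := 8 * n * 2 ^ (4 * n) with hsmin
  set r : ℕ := 2 ^ (2 * u) with hr
  have ht0 : 0 < t := by positivity
  have ht2 : t ≤ 1 / 2 := by
    rw [ht]
    apply one_div_le_one_div_of_le (by norm_num)
    calc (2 : ℝ) = 2 ^ 1 := by norm_num
      _ ≤ 2 ^ (4 * n) := pow_le_pow_right₀ (by norm_num) (by omega)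
  have ht1 : t < 1 := by linarith
  have hξ0 : 0 < ξ := by positivity
  have hξ1 : ξ ≤ 1 := by
    rw [hξ, div_le_one (by positivity)]
    exact one_le_pow₀ (by norm_num)
  have hs1 : 1 ≤ smin := by
    rw [hsmin]
    have : 0 < 8 * n * 2 ^ (4 * n) := by positivity
    omega
  have hr1 : 1 ≤ r := Nat.one_le_two_pow
  obtain ⟨hl1, hl2, hl3⟩ := lam_bound hn hu
  have hlam4 : (1 : ℝ) / 2 ^ (6 * n) ≤ 1 / 4 := by
    apply one_div_le_one_div_of_le (by norm_num)
    calc (4 : ℝ) = 2 ^ 2 := by norm_num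
      _ ≤ 2 ^ (6 * n) := pow_le_pow_right₀ (by norm_num) (by omega)
  have hE0 : (0 : ℝ) ≤ D * t := by positivity
  -- the condition for the nonnegativity of the weights
  have hcond : (1 - ξ) * (1 - t) ^ smin / t + ξ * (1 - t) ^ smin ≤ 1 := by
    have h1 : (1 - t) ^ smin / t ≤ 1 / 4 := hl1.trans hlam4
    have h2 : (1 - t) ^ smin ≤ 1 / 4 := by
      have h3 : (1 - t) ^ smin ≤ 1 / 4 * t := (div_le_iff₀ ht0).1 h1
      nlinarith
    have h0 : 0 ≤ (1 - t) ^ smin := pow_nonneg (by linarith) _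
    have h5 : 0 ≤ (1 - t) ^ smin / t := by positivity
    have h3 : (1 - ξ) * (1 - t) ^ smin / t ≤ (1 - t) ^ smin / t := by
      rw [mul_div_assoc]
      nlinarith
    have h4 : ξ * (1 - t) ^ smin ≤ (1 - t) ^ smin := by nlinarith
    linarith
  intro k
  induction k with
  | zero =>
    intro cs hcs s m ℓ F hF y hy b
    match cs, hcs with
    | [c], _ =>
      have h3 : Ns t (1 / 256) [c] s b₀ K (fun j => QF m F 0 b (y j)) ≤ 1 :=
        Ns_le_one ht0.le ht1.le (by norm_num) _ _ _ _ _
      rw [Wt_one]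
      by_cases hg : ngood (X := Unit) (c := c) t (1 / 256) D s < 1
      · rw [if_pos hg]
        push_cast
        linarith
      · rw [if_neg hg]
        have hg' : Good t (1 / 256) D (fun i : Fin c => s ((), i)) :=
          not_not.1 fun h => hg ((ngood_unit_lt (c := c)).2 h)
        have h1 := one_dt (c := c) ht0.le ht1.le (by norm_num : (1 : ℝ) / 256 ≤ 1)
          b₀ K D s (fun z j => F (y j) z) ((FinalAux.DTv.all fun j => hF (y j) (by
            have := hy j; omega)).mono hD) hg'
        have h2 : Ns t (1 / 256) [c] s b₀ K (fun j => QF m F 0 b (y j)) ≤ D * t := by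
          refine le_trans (le_of_eq ?_) h1
          have e0 : ∀ j, QF m F 0 b (y j) = F (y j) := by
            intro j; cases b <;> rfl
          unfold Ns
          simp only [e0]
          rfl
        push_cast
        linarith
  | succ k ih =>
    intro cs hcs s m ℓ F hF y hy b
    match cs, hcs with
    | c :: cs, hcs =>
      have hlen : cs.length = k + 1 := by simpa using hcs
      have hne : cs ≠ [] := by
        intro h; rw [h] at hlen; simp at hlen
      rw [Wt_two _ _ _ _ _ _ _ _ hne]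
      rw [Ns_stage (t' := t) (ξ := ξ) (smin := smin) ht0 ht1 ht0 hs1 cs s]
      have hℓ : ℓ + (k + 1) * (2 * m + 1) = ℓ + k * (2 * m + 1) + (2 * m + 1) := by ring
      have hsw := stage_switch (G := Idx Unit cs) (c := c) (smin := smin) (r := r) (t := t)
        (t' := t) (ξ := ξ) (lam := 1 / 2 ^ (6 * n)) ht0 ht2 ht0 ht1.le hξ0 hξ1 hs1 hl1 hlam4 hr1
        hl3 s m (ℓ + k * (2 * m + 1)) F (fun y' hy' => hF y' (by rw [hℓ]; exact hy'))
      set bad : (Idx Unit cs → St c) → Prop := fun ρ => ¬ ∀ y : List Bool,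
        y.length ≤ ℓ + k * (2 * m + 1) → ∀ b,
        DTr r (fun z : Idx Unit cs → Bool => QF m F 1 b y (XX s ρ z)) with hbad
      have hnn : ∀ ρ : Idx Unit cs → St c, 0 ≤ wt (G := Idx Unit cs) t t ξ smin s ρ := fun ρ =>
        wt_nonneg ht0 ht1 ht0 hξ0.le hξ1 hs1 hcond s ρ
      set E₁ : ℝ := k * (2 ^ (ℓ + k * (2 * m + 1) + 2) * (1 / 2) ^ (r + 1)) with hE₁
      have hE₁0 : 0 ≤ E₁ := by positivity
      have hterm : ∀ ρ : Idx Unit cs → St c, wt (G := Idx Unit cs) t t ξ smin s ρ *
          Ns t (1 / 256) cs (fun h => (ρ h).1) b₀ K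
            (fun j z => QF m F (k + 1) b (y j) (XX (G := Idx Unit cs) s ρ z))
          ≤ wt (G := Idx Unit cs) t t ξ smin s ρ * (if bad ρ then (1 : ℝ) else 0) +
            wt (G := Idx Unit cs) t t ξ smin s ρ * (E₁ + D * t) +
            wt (G := Idx Unit cs) t t ξ smin s ρ *
              Wt t ξ smin (1 / 256) D 1 cs (fun h => (ρ h).1) := by
        intro ρ
        rw [← mul_add, ← mul_add]
        apply mul_le_mul_of_nonneg_left _ (hnn ρ)
        by_cases hb : bad ρ
        · rw [if_pos hb]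
          have h3 := Ns_le_one (J := J) ht0.le ht1.le (by norm_num : (1 : ℝ) / 256 ≤ 1)
            cs (fun h => (ρ h).1) b₀ K
            (fun j z => QF m F (k + 1) b (y j) (XX (G := Idx Unit cs) s ρ z))
          have h4 : 0 ≤ Wt t ξ smin (1 / 256) D 1 cs (fun h : Idx Unit cs => (ρ h).1) :=
            Wt_nonneg ht0 ht1 hξ0.le hξ1 hs1 hcond cs _
          linarith
        · rw [if_neg hb, zero_add]
          have hgood : ∀ y : List Bool, y.length ≤ ℓ + k * (2 * m + 1) → ∀ b,
            DTr r (fun z : Idx Unit cs → Bool => QF m F 1 b y (XX s ρ z)) := not_not.1 hb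
          have h5 := ih cs hlen (fun h => (ρ h).1) m ℓ
            (fun y' z => QF m F 1 (bot b k) y' (XX (G := Idx Unit cs) s ρ z))
            (fun y' hy' => hgood y' hy' _) y hy b
          refine le_trans (le_of_eq ?_) h5
          congr 1
          funext j z
          rw [QF_peel, QF_comp m (fun y' => QF m F 1 (bot b k) y') (XX (G := Idx Unit cs) s ρ)]
      refine (Finset.sum_le_sum fun ρ _ => hterm ρ).trans ?_
      rw [Finset.sum_add_distrib, Finset.sum_add_distrib, ← Finset.sum_mul,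
        wt_sum ht0 ht1 ht0 hs1 s, one_mul]
      have h6 : 2 ^ (ℓ + k * (2 * m + 1) + 2) * (16 * (r : ℝ) * (1 / 2 ^ (6 * n))) ^ (r + 1) ≤
          2 ^ (ℓ + (k + 1) * (2 * m + 1) + 2) * (1 / 2) ^ (r + 1) := by
        apply mul_le_mul
        · apply pow_le_pow_right₀ (by norm_num)
          rw [hℓ]; omega
        · exact pow_le_pow_left₀ (by positivity) hl2 _
        · positivity
        · positivity
      have h7 : E₁ ≤ k * (2 ^ (ℓ + (k + 1) * (2 * m + 1) + 2) * (1 / 2) ^ (r + 1)) := by
        rw [hE₁]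
        apply mul_le_mul_of_nonneg_left _ (by positivity)
        apply mul_le_mul_of_nonneg_right _ (by positivity)
        apply pow_le_pow_right₀ (by norm_num)
        rw [hℓ]; omega
      have h8 := hsw.trans h6
      have h8' : ∑ ρ : Idx Unit cs → St c, wt (G := Idx Unit cs) t t ξ smin s ρ *
          (if bad ρ then (1 : ℝ) else 0) ≤
          2 ^ (ℓ + (k + 1) * (2 * m + 1) + 2) * (1 / 2) ^ (r + 1) := by
        refine le_trans (le_of_eq (Finset.sum_congr rfl fun ρ _ => ?_)) h8
        exact congrArg (fun q => wt (G := Idx Unit cs) t t ξ smin s ρ * q)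
          (if_congr Iff.rfl rfl rfl)
      push_cast
      have h9 : ((k : ℝ) + 1) * (2 ^ (ℓ + (k + 1) * (2 * m + 1) + 2) * (1 / 2) ^ (r + 1)) =
        k * (2 ^ (ℓ + (k + 1) * (2 * m + 1) + 2) * (1 / 2) ^ (r + 1)) +
          2 ^ (ℓ + (k + 1) * (2 * m + 1) + 2) * (1 / 2) ^ (r + 1) := by ring
      rw [h9]
      linarith

/-- all levels, and the level of the random bits -/
theorem one_leaf {J : Type} [Fintype J] [DecidableEq J] {n u D : ℕ} (hn : 5 ≤ n)
    (hu : 8 * u ≤ n) (hD : 2 ^ (2 * u) * Fintype.card J ≤ D) (b₀ : Bool)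
    (K : (J → Bool) → Prop) (k : ℕ) (cs : List ℕ)
    (hcs : cs.length = k + 1) (m ℓ : ℕ) (F : List Bool → (Idx Unit (8 * n :: cs) → Bool) → Bool)
    (hF : ∀ y : List Bool, y.length ≤ ℓ + k * (2 * m + 1) → DTr (2 ^ (2 * u)) (F y))
    (y : J → List Bool) (hy : ∀ j, (y j).length ≤ ℓ) (b : Bool) :
    Ns (1 / 2) (1 / 256) (8 * n :: cs) (fun _ => none) b₀ K (fun j => QF m F k b (y j)) ≤
      k * (2 ^ (ℓ + k * (2 * m + 1) + 2) * (1 / 2) ^ (2 ^ (2 * u) + 1)) +
      D * (1 / 2 ^ (4 * n)) +
      Ex (nxt (1 / 2) (1 / 2 ^ (4 * n)) 0 (8 * n) (8 * n) law0)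
        (Wt (X := Unit) (1 / 2 ^ (4 * n)) (1 / 2 ^ (2 * n)) (8 * n * 2 ^ (4 * n)) (1 / 256) D 1
          cs) := by
  classical
  set t : ℝ := 1 / 2 ^ (4 * n) with ht
  have ht0 : 0 < t := by positivity
  have hpow : (1 - 1 / 2 : ℝ) ^ (8 * n) / t ≤ 1 := by
    rw [ht, div_le_one (by positivity)]
    rw [show (1 - 1 / 2 : ℝ) = 1 / 2 by norm_num, one_div_pow]
    apply one_div_le_one_div_of_le (by positivity)
    exact pow_le_pow_right₀ (by norm_num) (by omega)
  have hs1 : 1 ≤ 8 * n := by omega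
  have hcond : (1 - 0) * (1 - 1 / 2 : ℝ) ^ (8 * n) / t + 0 * (1 - 1 / 2 : ℝ) ^ (8 * n) ≤ 1 := by
    rw [zero_mul, add_zero, sub_zero, one_mul]
    exact hpow
  set s0 : Idx Unit (8 * n :: cs) → Option Bool := fun _ => none with hs0
  rw [Ns_stage (t := 1 / 2) (t' := t) (ξ := 0) (smin := 8 * n) (by norm_num) (by norm_num) ht0 hs1
    cs s0]
  set E : ℝ := k * (2 ^ (ℓ + k * (2 * m + 1) + 2) * (1 / 2) ^ (2 ^ (2 * u) + 1)) +
      D * t with hE
  set W := Wt (X := Unit) t (1 / 2 ^ (2 * n)) (8 * n * 2 ^ (4 * n)) (1 / 256) D 1 cs with hW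
  have hterm : ∀ ρ : Idx Unit cs → St (8 * n),
      wt (G := Idx Unit cs) (1 / 2) t 0 (8 * n) s0 ρ *
        Ns t (1 / 256) cs (fun h => (ρ h).1) b₀ K
          (fun j z => QF m F k b (y j) (XX (G := Idx Unit cs) s0 ρ z)) ≤
      wt (G := Idx Unit cs) (1 / 2) t 0 (8 * n) s0 ρ * E +
        wt (G := Idx Unit cs) (1 / 2) t 0 (8 * n) s0 ρ * W (fun h => (ρ h).1) := by
    intro ρ
    rw [← mul_add]
    apply mul_le_mul_of_nonneg_left _
      (wt_nonneg (by norm_num) (by norm_num) ht0 le_rfl zero_le_one hs1 hcond s0 ρ)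
    have h5 := one_ind hn hu hD b₀ K k cs hcs (fun h => (ρ h).1) m ℓ
      (fun y' z => F y' (XX (G := Idx Unit cs) s0 ρ z))
      (fun y' hy' => DTr_XX (G := Idx Unit cs) s0 ρ (hF y' hy')) y hy b
    refine le_trans (le_of_eq ?_) h5
    congr 1
    funext j z
    rw [QF_comp m F (XX (G := Idx Unit cs) s0 ρ)]
  refine (Finset.sum_le_sum fun ρ _ => hterm ρ).trans ?_
  rw [Finset.sum_add_distrib, ← Finset.sum_mul,
    wt_sum (by norm_num) (by norm_num) ht0 hs1 s0, one_mul]
  have h8 := law_stage (G := Idx Unit cs) (c := 8 * n) (smin := 8 * n) (t := 1 / 2) (t' := t)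
    (ξ := 0) law0 W
  rw [Ex_law0] at h8
  rw [← h8]
  exact le_of_eq rfl

end Pool.Agent.J6H49.BI
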