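import Pool.Agent.J6H49.BI.One

/-!
# The root is good with probability close to one; the sizes of the levels
-/

set_option autoImplicit false

namespace Pool.Agent.J6H49.BI

open Finset H568R2 Pool.Agent.H676 Pool.Agent.H620R2.Gauge Pool.Agent.NPC Pool.Agent.H591R3.PHG
open GoodProbAux

open Classical in
theorem good_prob2 {c D T S : ℕ} {ξ : ℝ} (hT : 64 ≤ T) (hTS : T = 16 * S) (hD : 16 * D ≤ T)
    (hξ : 0 ≤ ξ) (hξ1 : ξ ≤ 1 / 32) {law : Option Bool → ℝ} (hn : ∀ v, 0 ≤ law v)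
    (hl : ∑ v, law v = 1)
    (hR : law (some true) ≤ 2 * ξ * (law none / T + law (some true)))
    (hp1 : 1 / 2 ≤ c * (law none / T + law (some true)))
    (hp2 : c * (law none / T + law (some true)) < 1) :
    1 - 2 * ξ - (3 / 16) ^ T - (1 / 4) ^ S ≤ ∑ σ : Fin c → Option Bool, (∏ i, law (σ i)) *
      (if Good (1 / T) (1 / 256) D σ then (1 : ℝ) else 0) := by
  have hS : 4 ≤ S := by omega
  have hTr : (0 : ℝ) < T := by
    have : 0 < T := by omega
    exact_mod_cast this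
  have hc0 : (0 : ℝ) ≤ c := Nat.cast_nonneg c
  have h1 : (1 - law (some true)) ^ c - (1 / 16 ^ T) * (1 + (2 - 1) * law none) ^ c -
      4 ^ S * (1 + (1 / 2 - 1) * law none) ^ c ≤ ∑ σ : Fin c → Option Bool, (∏ i, law (σ i)) *
      (if Good (1 / T) (1 / 256) D σ then (1 : ℝ) else 0) := by
    rw [← sum_wu hl, ← sum_wn 2 hl, ← sum_wn (1 / 2) hl, ← GoodProbAux.prod_sum,
      ← GoodProbAux.prod_sum, ← GoodProbAux.prod_sum,
      Finset.mul_sum, Finset.mul_sum, ← Finset.sum_sub_distrib, ← Finset.sum_sub_distrib]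
    refine Finset.sum_le_sum fun σ _ => ?_
    refine le_trans (le_of_eq ?_) (mul_le_mul_of_nonneg_left (good_lower hS hTS hD σ)
      (Finset.prod_nonneg fun i _ => hn _))
    ring
  refine le_trans ?_ h1
  set L := law none with hL
  set R := law (some true) with hRR
  have hL0 : 0 ≤ L := hn _
  have hR0 : 0 ≤ R := hn _
  have hR1 : R ≤ 1 := by
    rw [GoodProbAux.sum_option_bool] at hl
    have := hn (some false)
    linarith
  have hL1 : L ≤ 1 := by
    rw [GoodProbAux.sum_option_bool] at hl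
    have := hn (some false)
    linarith
  have hcR2 : c * R ≤ 2 * ξ := by
    calc c * R ≤ c * (2 * ξ * (L / T + R)) := mul_le_mul_of_nonneg_left hR hc0
      _ = 2 * ξ * (c * (L / T + R)) := by ring
      _ ≤ 2 * ξ * 1 := mul_le_mul_of_nonneg_left hp2.le (by linarith)
      _ = 2 * ξ := by ring
  -- c R ≤ 1/16 * c p
  have hcR : c * R ≤ 1 / 16 * (c * (L / T + R)) := by
    have e1 : 2 * ξ * (L / T + R) ≤ 1 / 16 * (L / T + R) := by
      refine mul_le_mul_of_nonneg_right (by linarith) ?_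
      have := div_nonneg hL0 hTr.le
      linarith
    calc c * R ≤ c * (1 / 16 * (L / T + R)) := mul_le_mul_of_nonneg_left (hR.trans e1) hc0
      _ = _ := by ring
  have hcL : c * L = T * (c * (L / T + R) - c * R) := by
    field_simp
    ring
  have hcL1 : c * L ≤ T := by
    rw [hcL]
    have e2 : c * (L / T + R) - c * R ≤ 1 := by
      have := mul_nonneg hc0 hR0
      linarith
    calc T * (c * (L / T + R) - c * R) ≤ T * 1 := mul_le_mul_of_nonneg_left e2 hTr.le
      _ = T := mul_one _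
  have hcL2 : 15 / 2 * S ≤ c * L := by
    rw [hcL]
    have e3 : 15 / 32 ≤ c * (L / T + R) - c * R := by linarith
    calc (15 : ℝ) / 2 * S = T * (15 / 32) := by rw [hTS]; push_cast; ring
      _ ≤ T * (c * (L / T + R) - c * R) := mul_le_mul_of_nonneg_left e3 hTr.le
  have a1 : 1 - 2 * ξ ≤ (1 - R) ^ c := by
    have b1 := one_add_mul_le_pow (show (-2 : ℝ) ≤ -R by linarith) c
    rw [← sub_eq_add_neg] at b1
    linarith
  have a2 : (1 / 16 ^ T) * (1 + (2 - 1) * L) ^ c ≤ (3 / 16) ^ T := by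
    have b1 : (1 + (2 - 1) * L) ^ c ≤ 3 ^ T := by
      calc (1 + (2 - 1) * L) ^ c ≤ (Real.exp L) ^ c := by
            refine pow_le_pow_left₀ (by linarith) ?_ c
            have := Real.add_one_le_exp L
            linarith
        _ = Real.exp (c * L) := (Real.exp_nat_mul L c).symm
        _ ≤ Real.exp T := Real.exp_le_exp.mpr hcL1
        _ = (Real.exp 1) ^ T := by rw [← Real.exp_nat_mul, mul_one]
        _ ≤ 3 ^ T := pow_le_pow_left₀ (Real.exp_pos 1).le
            (Real.exp_one_lt_d9.le.trans (by norm_num)) T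
    calc (1 / 16 ^ T) * (1 + (2 - 1) * L) ^ c ≤ (1 / 16 ^ T) * 3 ^ T :=
          mul_le_mul_of_nonneg_left b1 (by positivity)
      _ = (3 / 16 : ℝ) ^ T := by rw [div_pow]; ring
  have a3 : 4 ^ S * (1 + (1 / 2 - 1) * L) ^ c ≤ (1 / 4) ^ S := by
    have b1 : (1 + (1 / 2 - 1) * L) ^ c ≤ (1 / 16) ^ S := by
      calc (1 + (1 / 2 - 1) * L) ^ c ≤ (Real.exp (-(L / 2))) ^ c := by
            refine pow_le_pow_left₀ (by linarith) ?_ c
            have := Real.add_one_le_exp (-(L / 2))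
            linarith
        _ = Real.exp (c * (-(L / 2))) := (Real.exp_nat_mul _ c).symm
        _ ≤ Real.exp (S * (-3)) := by
            refine Real.exp_le_exp.mpr ?_
            have : (0 : ℝ) ≤ S := Nat.cast_nonneg S
            linarith
        _ = (Real.exp (-3)) ^ S := Real.exp_nat_mul _ S
        _ ≤ (1 / 16) ^ S := by
            refine pow_le_pow_left₀ (Real.exp_pos _).le ?_ S
            rw [Real.exp_neg, one_div]
            refine inv_anti₀ (by norm_num) ?_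
            have e4 : Real.exp 3 = (Real.exp 1) ^ 3 := by
              rw [← Real.exp_nat_mul]
              norm_num
            rw [e4]
            have e5 : (2.7 : ℝ) ≤ Real.exp 1 := le_trans (by norm_num) Real.exp_one_gt_d9.le
            calc (16 : ℝ) ≤ 2.7 ^ 3 := by norm_num
              _ ≤ (Real.exp 1) ^ 3 := pow_le_pow_left₀ (by norm_num) e5 3
    calc 4 ^ S * (1 + (1 / 2 - 1) * L) ^ c ≤ 4 ^ S * (1 / 16) ^ S :=
          mul_le_mul_of_nonneg_left b1 (by positivity)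
      _ = (1 / 4 : ℝ) ^ S := by rw [← mul_pow]; norm_num
  linarith

open Classical in
theorem few_good2 {c D : ℕ} {t cc δ : ℝ} {law : Option Bool → ℝ}
    (hl : ∑ v, law v = 1)
    (hgood : 1 - δ ≤ ∑ σ : Fin c → Option Bool, (∏ i, law (σ i)) *
      (if Good t cc D σ then (1 : ℝ) else 0)) :
    Ex law (fun s : Unit × Fin c → Option Bool =>
      if ngood (X := Unit) (c := c) t cc D s < 1 then (1 : ℝ) else 0) ≤ δ := by
  let h : (Fin c → Option Bool) → ℝ := fun σ => if Good t cc D σ then 0 else 1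
  have h1 : ∀ s : Unit × Fin c → Option Bool,
      (if ngood (X := Unit) (c := c) t cc D s < 1 then (1 : ℝ) else 0) =
        ∏ j : Unit, h (fun i => s (j, i)) := by
    intro s
    rw [Fintype.prod_unique]
    show _ = if Good t cc D (fun i => s ((), i)) then (0 : ℝ) else 1
    by_cases hg : Good t cc D (fun i => s ((), i))
    · rw [if_pos hg, if_neg (by rw [ngood_unit hg]; omega)]
    · rw [if_neg hg, if_pos (ngood_unit_lt.2 hg)]
  simp only [h1]
  rw [fg_block, Fintype.card_unit, pow_one]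
  have h5 : ∀ σ : Fin c → Option Bool, (∏ i, law (σ i)) * h σ =
      (∏ i, law (σ i)) - (∏ i, law (σ i)) * (if Good t cc D σ then (1 : ℝ) else 0) := by
    intro σ
    have : h σ = if Good t cc D σ then (0 : ℝ) else 1 := rfl
    rw [this]
    split_ifs <;> ring
  rw [Finset.sum_congr rfl fun σ _ => h5 σ, Finset.sum_sub_distrib]
  have h6 : ∑ σ : Fin c → Option Bool, ∏ i, law (σ i) = 1 := by
    have := Ex_const (I := Fin c) hl 1
    unfold Ex at this
    simpa using this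
  rw [h6]
  linarith

theorem small_pows {n : ℕ} (hn : 5 ≤ n) :
    (3 / 16 : ℝ) ^ (2 ^ (4 * n)) + (1 / 4) ^ (2 ^ (4 * n - 4)) ≤ 2 / 2 ^ (2 * n) := by
  have h0 : n ≤ 2 ^ (4 * n - 4) := by
    calc n ≤ 2 ^ n := Nat.lt_two_pow_self.le
      _ ≤ 2 ^ (4 * n - 4) := Nat.pow_le_pow_right (by norm_num) (by omega)
  have h1 : (1 / 4 : ℝ) ^ (2 ^ (4 * n - 4)) ≤ 1 / 2 ^ (2 * n) := by
    calc (1 / 4 : ℝ) ^ (2 ^ (4 * n - 4)) ≤ (1 / 4) ^ n :=
          pow_le_pow_of_le_one (by norm_num) (by norm_num) h0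
      _ = 1 / 2 ^ (2 * n) := by
          rw [pow_mul, div_pow, one_pow]; norm_num
  have h2 : (3 / 16 : ℝ) ^ (2 ^ (4 * n)) ≤ (1 / 4) ^ (2 ^ (4 * n - 4)) := by
    calc (3 / 16 : ℝ) ^ (2 ^ (4 * n)) ≤ (1 / 4) ^ (2 ^ (4 * n)) :=
          pow_le_pow_left₀ (by norm_num) (by norm_num) _
      _ ≤ _ := pow_le_pow_of_le_one (by norm_num) (by norm_num)
          (Nat.pow_le_pow_right (by norm_num) (by omega))
  have h3 : (2 : ℝ) / 2 ^ (2 * n) = 1 / 2 ^ (2 * n) + 1 / 2 ^ (2 * n) := by ring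
  rw [h3]
  linarith

/-- the sizes of the levels -/
theorem sizes {n : ℕ} (hn : 5 ≤ n) : ∀ (k : ℕ) (law : Option Bool → ℝ), Inv n law →
    ∃ as : List ℕ, as.length = k + 1 ∧ (∀ a ∈ as, a ≤ 64 * n) ∧
      ∀ D : ℕ, 16 * D ≤ 2 ^ (4 * n) →
        Ex law (Wt (X := Unit) (1 / 2 ^ (4 * n)) (1 / 2 ^ (2 * n)) (8 * n * 2 ^ (4 * n))
          (1 / 256) D 1 (pw as)) ≤ 4 / 2 ^ (2 * n) := by
  classical
  have h2n : (1 : ℝ) / 2 ^ (2 * n) ≤ 1 / 32 := by
    apply one_div_le_one_div_of_le (by norm_num)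
    calc (32 : ℝ) = 2 ^ 5 := by norm_num
      _ ≤ 2 ^ (2 * n) := pow_le_pow_right₀ (by norm_num) (by omega)
  intro k
  induction k with
  | zero =>
    intro law hinv
    obtain ⟨a, ha, h1, h2⟩ := exists_pow hn (B := 1 / 2) hinv.lo hinv.hi le_rfl (by
      have : (5 : ℝ) ≤ n := by exact_mod_cast hn
      linarith)
    refine ⟨[a], rfl, by simpa using ha, ?_⟩
    intro D hD
    have hT : (64 : ℕ) ≤ 2 ^ (4 * n) := by
      calc 64 = 2 ^ 6 := by norm_num
        _ ≤ 2 ^ (4 * n) := Nat.pow_le_pow_right (by norm_num) (by omega)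
    have h16 : 2 ^ (4 * n) = 16 * 2 ^ (4 * n - 4) := by
      have : (16 : ℕ) = 2 ^ 4 := by norm_num
      rw [this, ← pow_add]
      congr 1
      omega
    have hc : (((2 ^ (4 * n) : ℕ)) : ℝ) = 2 ^ (4 * n) := by push_cast; rfl
    have hc2 : (((2 ^ a : ℕ)) : ℝ) = 2 ^ a := by push_cast; rfl
    have hgp := good_prob2 (c := 2 ^ a) (D := D) (T := 2 ^ (4 * n)) (S := 2 ^ (4 * n - 4))
      (ξ := 1 / 2 ^ (2 * n)) hT h16 hD
      (by positivity) h2n (law := law) hinv.nonneg hinv.sum (by rw [hc]; exact hinv.rare)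
      (by rw [hc, hc2]; exact h1) (by rw [hc, hc2]; linarith)
    rw [hc] at hgp
    refine few_good2 (c := 2 ^ a) hinv.sum ?_
    refine le_trans ?_ hgp
    have h5 := small_pows hn
    have h6 : (4 : ℝ) / 2 ^ (2 * n) = 2 * (1 / 2 ^ (2 * n)) + 2 / 2 ^ (2 * n) := by ring
    rw [h6]
    linarith
  | succ k ih =>
    intro law hinv
    have hn5 : (5 : ℝ) ≤ n := by exact_mod_cast hn
    obtain ⟨a, ha, h1, h2⟩ := exists_pow hn (B := 16 * n) hinv.lo hinv.hi (by linarith) le_rfl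
    have hc2 : (((2 ^ a : ℕ)) : ℝ) = 2 ^ a := by push_cast; rfl
    have hinv' := inv_step (c := 2 ^ a) hn hinv (by rw [hc2]; exact h1)
      (by rw [hc2]; linarith)
    obtain ⟨as, hlen, has, hX⟩ := ih _ hinv'
    refine ⟨a :: as, by simp [hlen], ?_, ?_⟩
    · intro a' ha'
      rcases List.mem_cons.1 ha' with rfl | h
      · exact ha
      · exact has a' h
    · intro D hD
      refine le_trans (le_of_eq ?_) (hX D hD)
      have hne : pw as ≠ [] := by
        intro h
        have : (pw as).length = 0 := by rw [h]; rfl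
        rw [pw, List.length_map] at this
        omega
      rw [← law_stage (G := Idx Unit (pw as)) (c := 2 ^ a) (smin := 8 * n * 2 ^ (4 * n))
        (t := 1 / 2 ^ (4 * n)) (t' := 1 / 2 ^ (4 * n)) (ξ := 1 / 2 ^ (2 * n)) law]
      show Ex law (Wt (X := Unit) _ _ _ _ D 1 (2 ^ a :: pw as)) = _
      unfold Ex
      refine Finset.sum_congr rfl fun s _ => ?_
      rw [Wt_two _ _ _ _ _ _ _ _ hne]
      rfl

/-- **The correlation bound.** -/
theorem core (k : ℕ) {u : ℕ} (hu : 1 ≤ u) :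
    ∃ as : List ℕ, as.length = k + 1 ∧ (∀ a ∈ as, a ≤ 512 * u) ∧
      ∀ (J : Type) [Fintype J] [DecidableEq J], Fintype.card J ≤ 2 ^ u →
      ∀ (b₀ : Bool) (K : (J → Bool) → Prop) (m ℓ : ℕ)
        (F : List Bool → (Idx Unit (64 * u :: pw as) → Bool) → Bool),
        (∀ y : List Bool, y.length ≤ ℓ + k * (2 * m + 1) → DTr (2 ^ (2 * u)) (F y)) →
        ∀ y : J → List Bool, (∀ j, (y j).length ≤ ℓ) → ∀ b : Bool,
          Ns (1 / 2) (1 / 256) (64 * u :: pw as) (fun _ => none) b₀ K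
            (fun j => QF m F k b (y j)) ≤
            (k : ℝ) * (2 ^ (ℓ + k * (2 * m + 1) + 2) * (1 / 2) ^ (2 ^ (2 * u) + 1)) +
              5 / 2 ^ (16 * u) := by
  classical
  have hn : 5 ≤ 8 * u := by omega
  obtain ⟨as, h1, h2, h3⟩ := sizes hn k _ (inv_start hn)
  refine ⟨as, h1, fun a ha => ?_, ?_⟩
  · have := h2 a ha
    omega
  intro J _ _ hJ b₀ K m ℓ F hF y hy b
  have e64 : 8 * (8 * u) = 64 * u := by ring
  have hD : 2 ^ (2 * u) * Fintype.card J ≤ 2 ^ (3 * u) := by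
    calc 2 ^ (2 * u) * Fintype.card J ≤ 2 ^ (2 * u) * 2 ^ u := Nat.mul_le_mul_left _ hJ
      _ = 2 ^ (3 * u) := by rw [← pow_add]; congr 1; ring
  have h4 := h3 (2 ^ (3 * u)) (by
    have e : (16 : ℕ) = 2 ^ 4 := by norm_num
    rw [e, ← pow_add]
    exact Nat.pow_le_pow_right (by norm_num) (by omega))
  have hlen : (pw as).length = k + 1 := by
    rw [pw, List.length_map]; exact h1
  have h5 := one_leaf (J := J) (n := 8 * u) (u := u) (D := 2 ^ (3 * u)) hn le_rfl hD b₀ K k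
    (pw as) hlen m ℓ
  rw [e64] at h5
  have h6 := h5 F hF y hy b
  refine h6.trans ?_
  have h7 : (((2 ^ (3 * u) : ℕ)) : ℝ) * (1 / 2 ^ (4 * (8 * u))) ≤ 1 / 2 ^ (16 * u) := by
    push_cast
    rw [mul_one_div, div_le_div_iff₀ (by positivity) (by positivity), one_mul, ← pow_add]
    exact pow_le_pow_right₀ (by norm_num) (by omega)
  have e2 : 2 * (8 * u) = 16 * u := by ring
  rw [e2] at h4
  have h8 : (5 : ℝ) / 2 ^ (16 * u) = 1 / 2 ^ (16 * u) + 4 / 2 ^ (16 * u) := by ring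
  rw [h8]
  rw [← e64]
  rw [e2]
  linarith

end Pool.Agent.J6H49.BI
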