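import Pool.Agent.J6H49.BI.Sizes
import Pool.Agent.J6H49.BI.Closure
import Pool.Agent.J6H7.RO.Cor
import Pool.Agent.TH678.RS.Diag

/-!
# The table of the parameters and the language
-/

set_option autoImplicit false

namespace Pool.Agent.J6H49.BI

open Pool.Agent.NPC Pool.Agent.H620R2.Gauge Pool.Agent.H622R2 Pool.Agent.H591R3.PHG
open Pool.Agent.J6H7.RO LangTrAux Filter H568R2 Pool.Agent.H676

/-- the parameter for the length `N` -/
def uu (N : ℕ) : ℕ := (Nat.log 2 N) ^ 2

/-- the sizes of the levels -/
noncomputable def par (k N : ℕ) : List ℕ :=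
  if h : 1 ≤ uu N then (core k h).choose else []

/-- the length of the parameters in the input -/
noncomputable def parLen (k N : ℕ) : ℕ :=
  2 * (par k N).sum + (par k N).length + 2 * (64 * uu N) + 1

/-- The input of length `N` for `k + 1` alternating quantifiers. -/
noncomputable def inp (k N : ℕ) : List Bool :=
  enc (par k N) (64 * uu N) (List.replicate (N - parLen k N) false)

theorem length_inp {k N : ℕ} (h : parLen k N ≤ N) : (inp k N).length = N := by
  unfold inp
  rw [enc_len, List.length_replicate]
  unfold parLen at h ⊢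
  omega

/-- the string of length `N` which is given by the table -/
noncomputable def inq (k N : ℕ) : List Bool := (List.range N).map fun i => (inp k N).getD i false

theorem length_inq (k N : ℕ) : (inq k N).length = N := by
  simp [inq]

theorem inq_eq {k N : ℕ} (h : parLen k N ≤ N) : inq k N = inp k N := by
  apply List.ext_getElem
  · rw [length_inq, length_inp h]
  · intro i h1 h2
    simp [inq, List.getD_eq_getElem?_getD, List.getElem?_eq_getElem h2]

/-- The table: the `i`-th bit of the input of length `N` for `k + 1` alternating quantifiers. -/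
noncomputable def table : Oracle := fun q =>
  (inp (unpair q).1.length (unpair (unpair q).2).1.length).getD (unpair (unpair q).2).2.length false

/-- the question to the table -/
def code (k N i : ℕ) : List Bool :=
  pairBits (List.replicate k true) (pairBits (List.replicate N true) (List.replicate i true))

theorem table_code (k N i : ℕ) : table (code k N i) = (inp k N).getD i false := by
  unfold table code
  simp only [unpair_pairBits, List.length_replicate]

/-- **The language.** The value of the tree for the length of the input. -/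
def hardL (k : ℕ) (A : Oracle) : Set (List Bool) := {x | inq k x.length ∈ lang k A}

/-- a question to the table -/
def tqi (pre : List Bool) (k : ℕ) (x : List Bool) (l : ℕ) : List Bool :=
  pre ++ pairBits (List.replicate k true) (pairBits (x.map (fun _ => true))
    ((List.replicate (min l x.length) ()).map (fun _ => true)))

/-- the questions to the table -/
def tq (pre : List Bool) (k : ℕ) (x : List Bool) : List (List Bool) :=
  (List.range x.length).map (tqi pre k x)

theorem poly_tqi (pre : List Bool) (k : ℕ) :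
    Poly (fun p : List Bool × ℕ => tqi pre k p.1 p.2) := by
  have h2 : UPoly (fun x : List Bool => x.length) := UPoly.length Poly.id
  have h3 : UPoly (fun p : List Bool × ℕ => min p.2 p.1.length) :=
    UPoly.of_le (Poly.min (Poly.snd Poly.id) (Poly.length (Poly.fst Poly.id)))
      (h2.comp (Poly.fst Poly.id)) (fun p => min_le_right _ _)
  have h4 : Poly (fun p : List Bool × ℕ => p.1.map (fun _ => true)) :=
    NPC.Poly.map (F := fun _ _ => true) (Poly.fst Poly.id) (NPC.Poly.const true)
  have h5 : Poly (fun p : List Bool × ℕ =>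
      (List.replicate (min p.2 p.1.length) ()).map (fun _ => true)) :=
    NPC.Poly.map (F := fun _ _ => true) h3 (NPC.Poly.const true)
  exact Poly.append (NPC.Poly.const pre) (poly_pairBits (NPC.Poly.const (List.replicate k true))
      (poly_pairBits h4 h5))

theorem poly_tq (pre : List Bool) (k : ℕ) : Poly (tq pre k) := by
  have h2 : UPoly (fun x : List Bool => x.length) := UPoly.length Poly.id
  exact NPC.Poly.map (F := fun x l => tqi pre k x l) h2.range (poly_tqi pre k)

theorem isFP_inq {B : Oracle} {pre : List Bool} (hT : ∀ q, B (pre ++ q) = table q) (k : ℕ) :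
    IsFP B (fun x => inq k x.length) := by
  have h1 := IsFP.tt (A := B) (H := fun p : List Bool × List Bool => p.2) (poly_tq pre k)
    (Poly.snd Poly.id)
  have e : (fun x => (tq pre k x).map B) = fun x : List Bool => inq k x.length := by
    funext x
    unfold tq inq
    rw [List.map_map]
    refine List.map_congr_left fun i hi => ?_
    rw [List.mem_range] at hi
    show B (pre ++ _) = _
    have hmap : ∀ n : ℕ, (List.replicate n ()).map (fun _ => true) = List.replicate n true := by
      intro n; simp
    have hx : x.map (fun _ => true) = List.replicate x.length true := by simp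
    rw [hT, hmap, hx, Nat.min_eq_left hi.le]
    exact table_code k x.length i
  rw [← e]
  exact h1

/-- the language is in the level `Σ_{k+1}` -/
theorem hardL_sig {B A : Oracle} {pre pre' : List Bool} (hA : ∀ q, B (pre ++ q) = A q)
    (hT : ∀ q, B (pre' ++ q) = table q) (k : ℕ) : IsSig B (k + 1) (hardL k A) := by
  have h1 : IsSig B (k + 1) (lang k A) := by
    have h2 : view false (fun q => pre ++ q) B = A := by
      funext q
      show xor false (B (pre ++ q)) = A q
      rw [hA, Bool.false_xor]
    refine isSig_view (e := false) (f := fun q => pre ++ q) ?_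
      (Poly.append (NPC.Poly.const pre) Poly.id)
    rw [h2]
    exact lang_sig A k
  exact isSig_map h1 (isFP_inq hT k) fun x => length_inq k x.length

/-! ### Numbers -/

theorem ev_log (B : ℕ) : ∀ᶠ N : ℕ in atTop, B ≤ Nat.log 2 N := by
  filter_upwards [eventually_ge_atTop (2 ^ B)] with N hN
  exact Nat.le_log_of_pow_le (by norm_num) hN

theorem ev_uu (B : ℕ) : ∀ᶠ N : ℕ in atTop, B ≤ uu N := by
  filter_upwards [ev_log B, ev_log 1] with N hN h1
  unfold uu
  calc B ≤ Nat.log 2 N := hN
    _ = Nat.log 2 N ^ 1 := (pow_one _).symm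
    _ ≤ Nat.log 2 N ^ 2 := Nat.pow_le_pow_right h1 (by norm_num)

/-- every polynomial is below `2 ^ uu N` -/
theorem ev_poly (Q : Polynomial ℕ) : ∀ᶠ N : ℕ in atTop, Q.eval N ≤ 2 ^ uu N := by
  filter_upwards [ev_log (2 * (Q.natDegree + 1)), eventually_ge_atTop (max 2 (Q.eval 1))]
    with N h1 h2
  have hN2 : 2 ≤ N := (le_max_left _ _).trans h2
  have hQ : Q.eval 1 ≤ N := (le_max_right _ _).trans h2
  have h3 : Q.eval N ≤ N ^ (Q.natDegree + 1) := by
    refine (eval_le_pow Q (by omega)).trans ?_
    rw [pow_succ, mul_comm]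
    exact Nat.mul_le_mul_left _ hQ
  have h4 : N ≤ 2 ^ (2 * Nat.log 2 N) := by
    have h5 : N < 2 ^ (Nat.log 2 N + 1) := Nat.lt_pow_succ_log_self (by norm_num) N
    have h6 : 1 ≤ Nat.log 2 N := by omega
    exact h5.le.trans (Nat.pow_le_pow_right (by norm_num) (by omega))
  calc Q.eval N ≤ N ^ (Q.natDegree + 1) := h3
    _ ≤ (2 ^ (2 * Nat.log 2 N)) ^ (Q.natDegree + 1) := Nat.pow_le_pow_left h4 _
    _ = 2 ^ (2 * Nat.log 2 N * (Q.natDegree + 1)) := by rw [← pow_mul]
    _ ≤ 2 ^ uu N := by
      apply Nat.pow_le_pow_right (by norm_num)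
      unfold uu
      rw [pow_two]
      calc 2 * Nat.log 2 N * (Q.natDegree + 1) = Nat.log 2 N * (2 * (Q.natDegree + 1)) := by ring
        _ ≤ Nat.log 2 N * Nat.log 2 N := Nat.mul_le_mul_left _ h1

theorem par_spec {k N : ℕ} (h : 1 ≤ uu N) : (par k N).length = k + 1 ∧
    (∀ a ∈ par k N, a ≤ 512 * uu N) ∧
      ∀ (J : Type) [Fintype J] [DecidableEq J], Fintype.card J ≤ 2 ^ uu N →
      ∀ (b₀ : Bool) (K : (J → Bool) → Prop) (m ℓ : ℕ)
        (F : List Bool → (Idx Unit (64 * uu N :: pw (par k N)) → Bool) → Bool),
        (∀ y : List Bool, y.length ≤ ℓ + k * (2 * m + 1) → DTr (2 ^ (2 * uu N)) (F y)) →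
        ∀ y : J → List Bool, (∀ j, (y j).length ≤ ℓ) → ∀ b : Bool,
          Ns (1 / 2) (1 / 256) (64 * uu N :: pw (par k N)) (fun _ => none) b₀ K
            (fun j => QF m F k b (y j)) ≤
            (k : ℝ) * (2 ^ (ℓ + k * (2 * m + 1) + 2) * (1 / 2) ^ (2 ^ (2 * uu N) + 1)) +
              5 / 2 ^ (16 * uu N) := by
  unfold par
  rw [dif_pos h]
  exact (core k h).choose_spec

/-- the parameters fit -/
theorem ev_par (k : ℕ) : ∀ᶠ N : ℕ in atTop, 1 ≤ uu N ∧ 2 * parLen k N ≤ N := by
  obtain ⟨t, ht⟩ := (eventually_atTop.1 (Pool.Agent.TH678.RS.ev_poly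
    (2 * (1024 * (k + 1) + 128 + k + 2)) 2))
  filter_upwards [ev_log (t + 1), ev_uu 1, eventually_ge_atTop 1] with N h1 h2 h3
  refine ⟨h2, ?_⟩
  obtain ⟨h4, h5, _⟩ := par_spec (k := k) h2
  have h6 := sum_le_of h5
  rw [h4] at h6
  have h7 := ht (Nat.log 2 N) (by omega)
  have h8 : 2 ^ Nat.log 2 N ≤ N := Nat.pow_log_le_self 2 (by omega)
  unfold parLen
  rw [h4]
  have h9 : uu N ≤ (Nat.log 2 N + 1) ^ 2 := Nat.pow_le_pow_left (by omega) 2
  have h10 : 2 * (2 * (par k N).sum + (k + 1) + 2 * (64 * uu N) + 1) ≤
      2 * (1024 * (k + 1) + 128 + k + 2) * uu N := by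
    have h11 : 2 * (1024 * (k + 1) + 128 + k + 2) * uu N =
      2 * (2 * (512 * uu N * (k + 1)) + (k + 1) * uu N + 2 * (64 * uu N) + uu N) := by ring
    rw [h11]
    have h12 : k + 1 ≤ (k + 1) * uu N := Nat.le_mul_of_pos_right _ (by omega)
    omega
  have h13 : 2 * (1024 * (k + 1) + 128 + k + 2) * uu N ≤
      2 * (1024 * (k + 1) + 128 + k + 2) * (Nat.log 2 N + 1) ^ 2 := Nat.mul_le_mul_left _ h9
  omega

end Pool.Agent.J6H49.BI
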