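import Pool.Agent.J6H49.BI.Corr

/-!
# The windows and the Borel-Cantelli argument
-/

set_option autoImplicit false

namespace Pool.Agent.J6H49.BI

open Pool.Agent.NPC Finset H568R2 Pool.Agent.H676 Pool.Agent.H620R2.Gauge Pool.Agent.H591R3.PHG
open Pool.Agent.J6H7.RO MeasureTheory Filter LangTrAux
open Pool.Agent.J6H49.PHC (mix mix_pre mix_off smp_mix quant_congr)

/-- short questions are answered by the short strings -/
theorem LateP.short {pre : List Bool} {O : Oracle → Oracle} (hO : LateP pre O) :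
    ∀ᶠ N : ℕ in atTop, ∀ A A' : Oracle, (∀ u : List Bool, u.length < N → A u = A' u) →
      ∀ q : List Bool, q.length ≤ N → O A q = O A' q := by
  filter_upwards [hO.slow 1] with N h A A' hA q hq
  by_cases hpre : ∃ x, q = pre ++ x
  · obtain ⟨x, rfl⟩ := hpre
    rw [hO.direct, hO.direct]
    refine hA x ?_
    have h1 : 0 < pre.length := List.length_pos_of_ne_nil hO.ne
    rw [List.length_append] at hq
    omega
  · push Not at hpre
    exact h A A' hA q (by rw [pow_one]; exact hq) hpre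

theorem rt_local {k N : ℕ} (hu : 1 ≤ uu N) (h : 2 * parLen k N ≤ N) {A A' : Oracle}
    (hA : ∀ u : List Bool, u.length < 2 * N → A u = A' u) (b : Bool) :
    A ∈ Rt k N b ↔ A' ∈ Rt k N b := by
  have key : ∀ B : Oracle, inp k N ∈ lang k B ↔
      Tr (64 * uu N :: pw (par k N)) (fun g => B (posn k N g)) () = false := fun B =>
    mem_lang_iff (X := Unit) B k (par k N) (par_spec hu).1
      (64 * uu N) (fun _ => List.replicate (N - parLen k N) false) ()
  have e : (fun g => A (posn k N g)) = fun g => A' (posn k N g) :=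
    funext fun g => hA _ (posn_len2 h g)
  show (inp k N ∈ lang k A ↔ b = false) ↔ (inp k N ∈ lang k A' ↔ b = false)
  rw [key A, key A', e]

/-- the windows -/
def W (w₀ c : ℕ) (i : ℕ) : ℕ := w₀ ^ (c ^ i)

theorem W_succ (w₀ c i : ℕ) : W w₀ c (i + 1) = W w₀ c i ^ c := by
  unfold W
  rw [pow_succ, pow_mul]

theorem W_lt {w₀ c : ℕ} (hw : 2 ≤ w₀) (hc : 2 ≤ c) (i : ℕ) : W w₀ c i < W w₀ c (i + 1) := by
  unfold W
  exact Nat.pow_lt_pow_right (by omega) (Nat.pow_lt_pow_right (by omega) (by omega))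

theorem W_mono {w₀ c : ℕ} (hw : 2 ≤ w₀) (hc : 2 ≤ c) : StrictMono (W w₀ c) :=
  strictMono_nat_of_lt_succ (W_lt hw hc)

theorem W_zero_le {w₀ c : ℕ} (hw : 2 ≤ w₀) (hc : 2 ≤ c) (i : ℕ) : w₀ ≤ W w₀ c i := by
  have h := (W_mono hw hc).monotone (Nat.zero_le i)
  unfold W at h ⊢
  simpa using h

/-- every large number is in a window -/
theorem exists_window {w₀ c : ℕ} (hw : 2 ≤ w₀) (hc : 2 ≤ c) {N : ℕ} (hN : w₀ ≤ N) :
    ∃ i, W w₀ c i ≤ N ∧ N < W w₀ c (i + 1) := by
  have hex : ∃ i, N < W w₀ c i := ⟨N + 1, by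
    have := (W_mono hw hc).id_le (N + 1)
    simp only [id] at this
    omega⟩
  classical
  have h1 := Nat.find_spec hex
  have h2 := fun m hm => Nat.find_min hex (m := m) hm
  set i := Nat.find hex
  rcases Nat.eq_zero_or_pos i with h0 | h0
  · rw [h0] at h1
    unfold W at h1
    simp at h1
    omega
  · refine ⟨i - 1, not_lt.1 (h2 (i - 1) (by omega)), ?_⟩
    rw [Nat.sub_add_cancel h0]
    exact h1

section

variable (k : ℕ) (O : Oracle → Oracle) (M : Alg) (p₁ : Polynomial ℕ) (w₀ c : ℕ)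

/-- a length in the window `i` is accepted -/
def AccW (i : ℕ) : Set Oracle :=
  {A | ∃ N, W w₀ c i ≤ N ∧ N < W w₀ c (i + 1) ∧ A ∈ Acc k O M (p₁.eval (W w₀ c (i + 1))) N}

/-- in the windows `2 j' + e` with `j' < j` all the accepted lengths have the value `!b` -/
def Surv (b : Bool) (e j : ℕ) : Set Oracle :=
  {A | ∀ j' < j, ∀ N, W w₀ c (2 * j' + e) ≤ N → N < W w₀ c (2 * j' + e + 1) →
    A ∈ Acc k O M (p₁.eval (W w₀ c (2 * j' + e + 1))) N → A ∈ Rt k N (!b)}

end

variable {k : ℕ} {O : Oracle → Oracle} {M : Alg} {p₁ : Polynomial ℕ} {w₀ c : ℕ}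

theorem accW_eq (i : ℕ) : AccW k O M p₁ w₀ c i = ⋃ N ∈ Finset.Ico (W w₀ c i) (W w₀ c (i + 1)),
    FA k O M (p₁.eval (W w₀ c (i + 1))) (W w₀ c i) N := by
  classical
  ext A
  simp only [Set.mem_iUnion, Finset.mem_Ico]
  constructor
  · intro h
    have hex : ∃ N, W w₀ c i ≤ N ∧ N < W w₀ c (i + 1) ∧
      A ∈ Acc k O M (p₁.eval (W w₀ c (i + 1))) N := h
    have h1 := Nat.find_spec hex
    have h2 := fun m hm => Nat.find_min hex (m := m) hm
    refine ⟨Nat.find hex, ⟨h1.1, h1.2.1⟩, h1.2.2, fun j hj hlo hacc => ?_⟩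
    exact h2 j hj ⟨hlo, by omega, hacc⟩
  · rintro ⟨N, ⟨h1, h2⟩, h3⟩
    exact ⟨N, h1, h2, h3.1⟩

theorem meas_accW (hO : MO O) (i : ℕ) : MeasurableSet (AccW k O M p₁ w₀ c i) := by
  rw [accW_eq]
  exact Finset.measurableSet_biUnion _ fun N _ => meas_fa hO k M _ _ N

theorem meas_surv (hO : MO O) (b : Bool) (e j : ℕ) :
    MeasurableSet (Surv k O M p₁ w₀ c b e j) := by
  have : Surv k O M p₁ w₀ c b e j = ⋂ j' : ℕ, ⋂ N : ℕ, {A | j' < j →
      W w₀ c (2 * j' + e) ≤ N → N < W w₀ c (2 * j' + e + 1) →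
      A ∈ Acc k O M (p₁.eval (W w₀ c (2 * j' + e + 1))) N → A ∈ Rt k N (!b)} := by
    ext A
    simp only [Surv, Set.mem_ofPred_eq, Set.mem_iInter]
    constructor
    · intro h j' N h1 h2 h3 h4
      exact h j' h1 N h2 h3 h4
    · intro h j' h1 N h2 h3 h4
      exact h j' N h1 h2 h3 h4
  rw [this]
  refine MeasurableSet.iInter fun j' => MeasurableSet.iInter fun N => ?_
  by_cases h1 : j' < j
  · by_cases h2 : W w₀ c (2 * j' + e) ≤ N
    · by_cases h3 : N < W w₀ c (2 * j' + e + 1)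
      · simp only [h1, h2, h3, true_imp_iff]
        have e1 : {A | A ∈ Acc k O M (p₁.eval (W w₀ c (2 * j' + e + 1))) N → A ∈ Rt k N (!b)} =
          (Acc k O M (p₁.eval (W w₀ c (2 * j' + e + 1))) N)ᶜ ∪ Rt k N (!b) := by
          ext A
          simp only [Set.mem_ofPred_eq, Set.mem_union, Set.mem_compl_iff]
          tauto
        rw [e1]
        exact (meas_acc hO k M _ N).compl.union (meas_rt k N (!b))
      · simp only [h3, false_imp_iff, imp_true_iff]
        exact MeasurableSet.const _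
    · simp only [h2, false_imp_iff, imp_true_iff]
      exact MeasurableSet.const _
  · simp only [h1, false_imp_iff]
    exact MeasurableSet.const _

/-- the facts about the windows -/
structure Wnd (pre : List Bool) (k : ℕ) (O : Oracle → Oracle) (M : Alg) (p₁ : Polynomial ℕ)
    (w₀ c : ℕ) : Prop where
  hw : 2 ≤ w₀
  hc : 2 ≤ c
  par : ∀ N, w₀ ≤ N → 1 ≤ uu N ∧ 2 * parLen k N ≤ N
  acc : ∀ n N, w₀ ≤ n → n ^ c ≤ N → ∀ A A' : Oracle,
    (∀ u : List Bool, u.length < N → A u = A' u) → ∀ N' ≤ n,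
      (A ∈ Acc k O M (p₁.eval n) N' ↔ A' ∈ Acc k O M (p₁.eval n) N')
  corr : ∀ N, w₀ ≤ N → ∀ (m lo : ℕ) (b : Bool) (H : Set Oracle), MeasurableSet H →
    (∀ A A' : Oracle, (∀ u : List Bool, u.length < N → A u = A' u) → (A ∈ H ↔ A' ∈ H)) →
    m ≤ p₁.eval (N ^ c) →
    prob (fun _ => fair) (H ∩ FA k O M m lo N ∩ Rt k N (!b)) ≤
      (1 - 1 / 256) * prob (fun _ => fair) (H ∩ FA k O M m lo N) + 1 / (N : ℝ) ^ 2

theorem exists_wnd {pre : List Bool} (hO : LateP pre O) (k : ℕ) (M : Alg) (p₁ : Polynomial ℕ) :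
    ∃ w₀ c : ℕ, Wnd pre k O M p₁ w₀ c := by
  obtain ⟨qb, hqb⟩ := Alg.out_local M
  set P₀ : Polynomial ℕ := Polynomial.X + Polynomial.C k * (2 * p₁ + 1) with hP₀
  have hP₀e : ∀ n, P₀.eval n = n + k * (2 * p₁.eval n + 1) := by
    intro n; simp [hP₀]
  obtain ⟨c₀, hc₀⟩ := eval_le_self_pow (qb.comp P₀)
  set c := c₀ + 2 with hc
  have hcorr := corr hO k M (P₀.comp (Polynomial.X ^ c))
  obtain ⟨n₁, h1⟩ := eventually_atTop.1 (((hc₀.and hO.short).and (ev_par k)).and hcorr)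
  refine ⟨max 2 n₁, c, le_max_left _ _, by omega, fun N hN => ?_, fun n N hn hN A A' hA N' hN' => ?_,
    fun N hN m lo b H hH hinv hm => ?_⟩
  · exact ((h1 N ((le_max_right _ _).trans hN)).1).2
  · have hn1 : n₁ ≤ n := (le_max_right _ _).trans hn
    have hn2 : 2 ≤ n := (le_max_left _ _).trans hn
    have hnN : n ≤ N := by
      refine le_trans ?_ hN
      calc n = n ^ 1 := (pow_one n).symm
        _ ≤ n ^ c := Nat.pow_le_pow_right (by omega) (by omega)
    have h2 := (h1 n hn1).1.1.1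
    have h3 := (h1 N (hn1.trans hnN)).1.1.2
    refine quant_congr k true (tl N') fun y hy => ?_
    have hy2 : y.length ≤ P₀.eval n := by
      rw [hP₀e]
      refine hy.trans ?_
      unfold tl
      rw [List.length_replicate]
      omega
    obtain ⟨Q, _, hQ2, hQ3⟩ := hqb (O A') y
    have h4 : M.out (O A) y = M.out (O A') y := by
      refine hQ3 _ fun q hq => ?_
      refine h3 A A' hA q ?_
      refine (hQ2 q hq).trans (le_trans ?_ hN)
      calc qb.eval y.length ≤ qb.eval (P₀.eval n) := eval_mono _ hy2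
        _ = (qb.comp P₀).eval n := by rw [Polynomial.eval_comp]
        _ ≤ n ^ c₀ := h2
        _ ≤ n ^ c := Nat.pow_le_pow_right (by omega) (by omega)
    unfold outV
    rw [h4]
  · have hN2 : 2 ≤ N := (le_max_left _ _).trans hN
    refine (h1 N ((le_max_right _ _).trans hN)).2 m lo b H hH hinv ?_
    rw [Polynomial.eval_comp, hP₀e]
    simp only [Polynomial.eval_pow, Polynomial.eval_X]
    have h5 : N ≤ N ^ c := by
      calc N = N ^ 1 := (pow_one N).symm
        _ ≤ N ^ c := Nat.pow_le_pow_right (by omega) (by omega)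
    have h6 : k * (2 * m + 1) ≤ k * (2 * p₁.eval (N ^ c) + 1) := Nat.mul_le_mul_left _ (by omega)
    omega

variable {pre : List Bool} (hw : Wnd pre k O M p₁ w₀ c)

include hw

theorem surv_inv (b : Bool) (e j N : ℕ) (hN : W w₀ c (2 * j + e) ≤ N) (A A' : Oracle)
    (hA : ∀ u : List Bool, u.length < N → A u = A' u) :
    A ∈ Surv k O M p₁ w₀ c b e j ↔ A' ∈ Surv k O M p₁ w₀ c b e j := by
  have key : ∀ j' < j, ∀ n, n < W w₀ c (2 * j' + e + 1) →
      W w₀ c (2 * j' + e) ≤ n →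
      (A ∈ Acc k O M (p₁.eval (W w₀ c (2 * j' + e + 1))) n ↔
        A' ∈ Acc k O M (p₁.eval (W w₀ c (2 * j' + e + 1))) n) ∧
      (A ∈ Rt k n (!b) ↔ A' ∈ Rt k n (!b)) := by
    intro j' hj n hn hn0
    have h1 : W w₀ c (2 * j' + e + 1) ^ c ≤ N := by
      rw [← W_succ]
      exact ((W_mono hw.hw hw.hc).monotone (by omega)).trans hN
    have h2 : w₀ ≤ n := (W_zero_le hw.hw hw.hc _).trans hn0
    refine ⟨hw.acc _ N (W_zero_le hw.hw hw.hc _) h1 A A' hA n hn.le, ?_⟩
    refine rt_local (hw.par n h2).1 (hw.par n h2).2 (fun u hu => hA u ?_) (!b)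
    have h3 : 2 ≤ W w₀ c (2 * j' + e + 1) := hw.hw.trans (W_zero_le hw.hw hw.hc _)
    have h4 : 2 * W w₀ c (2 * j' + e + 1) ≤ W w₀ c (2 * j' + e + 1) ^ c := by
      calc 2 * W w₀ c (2 * j' + e + 1) ≤ W w₀ c (2 * j' + e + 1) * W w₀ c (2 * j' + e + 1) :=
            Nat.mul_le_mul_right _ h3
        _ = W w₀ c (2 * j' + e + 1) ^ 2 := (pow_two _).symm
        _ ≤ W w₀ c (2 * j' + e + 1) ^ c := Nat.pow_le_pow_right (by omega) hw.hc
    omega
  constructor
  · intro h j' hj n h1 h2 h3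
    exact (key j' hj n h2 h1).2.1 (h j' hj n h1 h2 ((key j' hj n h2 h1).1.2 h3))
  · intro h j' hj n h1 h2 h3
    exact (key j' hj n h2 h1).2.2 (h j' hj n h1 h2 ((key j' hj n h2 h1).1.1 h3))

/-- one window -/
theorem surv_step (hO : MO O) (b : Bool) (e j : ℕ) :
    prob (fun _ => fair) (Surv k O M p₁ w₀ c b e (j + 1)) ≤
      prob (fun _ => fair) (Surv k O M p₁ w₀ c b e j) -
      1 / 256 * prob (fun _ => fair)
        (Surv k O M p₁ w₀ c b e j ∩ AccW k O M p₁ w₀ c (2 * j + e)) +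
      ∑ N ∈ Finset.Ico (W w₀ c (2 * j + e)) (W w₀ c (2 * j + e + 1)), 1 / (N : ℝ) ^ 2 := by
  classical
  set i := 2 * j + e with hi
  set m := p₁.eval (W w₀ c (i + 1)) with hm
  set S := Surv k O M p₁ w₀ c b e j with hS
  set F := fun N => FA k O M m (W w₀ c i) N with hF
  set I := Finset.Ico (W w₀ c i) (W w₀ c (i + 1)) with hI
  have hmS : MeasurableSet S := meas_surv hO b e j
  have hmA : MeasurableSet (AccW k O M p₁ w₀ c i) := meas_accW hO i
  have hmF : ∀ N, MeasurableSet (F N) := fun N => meas_fa hO k M _ _ N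
  -- the cover
  have hsub : Surv k O M p₁ w₀ c b e (j + 1) ⊆ (S \ AccW k O M p₁ w₀ c i) ∪
      ⋃ N ∈ I, (S ∩ F N ∩ Rt k N (!b)) := by
    intro A hA
    have hAS : A ∈ S := fun j' hj => hA j' (by omega)
    by_cases hacc : A ∈ AccW k O M p₁ w₀ c i
    · right
      rw [accW_eq] at hacc
      simp only [Set.mem_iUnion] at hacc ⊢
      obtain ⟨N, hN, hNF⟩ := hacc
      refine ⟨N, hN, ⟨hAS, hNF⟩, ?_⟩
      rw [Finset.mem_Ico] at hN
      exact hA j (by omega) N hN.1 hN.2 hNF.1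
    · left
      exact ⟨hAS, hacc⟩
  have h1 : prob (fun _ => fair) (Surv k O M p₁ w₀ c b e (j + 1)) ≤
      prob (fun _ => fair) (S \ AccW k O M p₁ w₀ c i) +
        ∑ N ∈ I, prob (fun _ => fair) (S ∩ F N ∩ Rt k N (!b)) := by
    refine (measureReal_mono hsub (measure_ne_top _ _)).trans ?_
    refine (measureReal_union_le _ _).trans ?_
    refine add_le_add le_rfl (measureReal_biUnion_finset_le _ _)
  -- the correlation bound
  have h2 : ∀ N ∈ I, prob (fun _ => fair) (S ∩ F N ∩ Rt k N (!b)) ≤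
      (1 - 1 / 256) * prob (fun _ => fair) (S ∩ F N) + 1 / (N : ℝ) ^ 2 := by
    intro N hN
    rw [hI, Finset.mem_Ico] at hN
    refine hw.corr N ((W_zero_le hw.hw hw.hc _).trans hN.1) m _ b S hmS
      (fun A A' hA => surv_inv hw b e j N hN.1 A A' hA) ?_
    rw [hm, W_succ]
    exact eval_mono _ (Nat.pow_le_pow_left hN.1 c)
  -- the disjoint union
  have h3 : ∑ N ∈ I, prob (fun _ => fair) (S ∩ F N) =
      prob (fun _ => fair) (S ∩ AccW k O M p₁ w₀ c i) := by
    rw [accW_eq, Set.inter_iUnion₂]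
    symm
    refine measureReal_biUnion_finset ?_ fun N _ => hmS.inter (hmF N)
    intro N hN N' hN' hne
    have key : ∀ n n', n ∈ I → n < n' → Disjoint (S ∩ F n) (S ∩ F n') := by
      intro n n' hn hnn
      rw [Set.disjoint_left]
      rintro A ⟨_, hA1⟩ ⟨_, hA2⟩
      rw [hI, Finset.mem_Ico] at hn
      exact hA2.2 n hnn hn.1 hA1.1
    rcases lt_or_gt_of_ne hne with h | h
    · exact key N N' hN h
    · exact (key N' N hN' h).symm
  have h4 : prob (fun _ => fair) (S \ AccW k O M p₁ w₀ c i) =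
      prob (fun _ => fair) S - prob (fun _ => fair) (S ∩ AccW k O M p₁ w₀ c i) := by
    have := measureReal_inter_add_sdiff (μ := randomOracle fun _ => fair) (s := S) hmA
    unfold prob
    linarith
  have h5 : ∑ N ∈ I, prob (fun _ => fair) (S ∩ F N ∩ Rt k N (!b)) ≤
      (1 - 1 / 256) * prob (fun _ => fair) (S ∩ AccW k O M p₁ w₀ c i) +
        ∑ N ∈ I, 1 / (N : ℝ) ^ 2 := by
    refine (Finset.sum_le_sum h2).trans (le_of_eq ?_)
    rw [Finset.sum_add_distrib, ← Finset.mul_sum, h3]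
  rw [h4] at h1
  linarith

theorem sum_errors (e J : ℕ) :
    ∑ j ∈ Finset.range J, ∑ N ∈ Finset.Ico (W w₀ c (2 * j + e)) (W w₀ c (2 * j + e + 1)),
      1 / (N : ℝ) ^ 2 ≤ ∑ N ∈ Finset.range (W w₀ c (2 * J + e)), 1 / (N : ℝ) ^ 2 := by
  have hnn : ∀ N : ℕ, (0 : ℝ) ≤ 1 / (N : ℝ) ^ 2 := fun N => by positivity
  induction J with
  | zero =>
    rw [Finset.sum_range_zero]
    exact Finset.sum_nonneg fun N _ => hnn N
  | succ J ih =>
    rw [Finset.sum_range_succ]
    have h1 : W w₀ c (2 * J + e) ≤ W w₀ c (2 * J + e + 1) := (W_lt hw.hw hw.hc _).le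
    have h2 := Finset.sum_range_add_sum_Ico (fun N : ℕ => 1 / (N : ℝ) ^ 2) h1
    have h3 : ∑ N ∈ Finset.range (W w₀ c (2 * J + e + 1)), 1 / (N : ℝ) ^ 2 ≤
        ∑ N ∈ Finset.range (W w₀ c (2 * (J + 1) + e)), 1 / (N : ℝ) ^ 2 := by
      refine Finset.sum_le_sum_of_subset_of_nonneg ?_ fun N _ _ => hnn N
      exact Finset.range_mono ((W_mono hw.hw hw.hc).monotone (by omega))
    linarith

theorem ae_window (hO : MO O) (b : Bool) (e : ℕ) : ∀ᵐ A ∂(randomOracle fun _ => fair),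
    ∀ᶠ j : ℕ in atTop, A ∉ Surv k O M p₁ w₀ c b e j ∩ AccW k O M p₁ w₀ c (2 * j + e) := by
  set a : ℕ → ℝ := fun j => prob (fun _ => fair)
    (Surv k O M p₁ w₀ c b e j ∩ AccW k O M p₁ w₀ c (2 * j + e)) with ha
  have ha0 : ∀ j, 0 ≤ a j := fun j => measureReal_nonneg
  have hsq : Summable (fun N : ℕ => 1 / (N : ℝ) ^ 2) :=
    Real.summable_one_div_nat_pow.2 (by norm_num)
  have hnn : ∀ N : ℕ, (0 : ℝ) ≤ 1 / (N : ℝ) ^ 2 := fun N => by positivity
  have hsum : Summable a := by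
    refine summable_of_sum_range_le (c := 256 * (1 + ∑' N : ℕ, 1 / (N : ℝ) ^ 2)) ha0 fun J => ?_
    have h1 : ∀ J : ℕ, 1 / 256 * ∑ j ∈ Finset.range J, a j ≤
        1 - prob (fun _ => fair) (Surv k O M p₁ w₀ c b e J) +
        ∑ j ∈ Finset.range J, ∑ N ∈ Finset.Ico (W w₀ c (2 * j + e)) (W w₀ c (2 * j + e + 1)),
          1 / (N : ℝ) ^ 2 := by
      intro J
      induction J with
      | zero =>
        simp only [Finset.sum_range_zero, mul_zero, add_zero]
        have : prob (fun _ => fair) (Surv k O M p₁ w₀ c b e 0) ≤ 1 := measureReal_le_one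
        linarith
      | succ J ih =>
        rw [Finset.sum_range_succ, Finset.sum_range_succ]
        have h2 := surv_step hw hO b e J
        have h3 : a J = prob (fun _ => fair)
          (Surv k O M p₁ w₀ c b e J ∩ AccW k O M p₁ w₀ c (2 * J + e)) := rfl
        rw [h3, mul_add]
        linarith
    have h2 := h1 J
    have h3 := sum_errors hw e J
    have h4 : ∑ N ∈ Finset.range (W w₀ c (2 * J + e)), 1 / (N : ℝ) ^ 2 ≤
        ∑' N : ℕ, 1 / (N : ℝ) ^ 2 := hsq.sum_le_tsum _ fun N _ => hnn N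
    have h5 : 0 ≤ prob (fun _ => fair) (Surv k O M p₁ w₀ c b e J) := measureReal_nonneg
    linarith
  refine ae_eventually_notMem ?_
  have h6 : ∀ j, (randomOracle fun _ => fair)
      (Surv k O M p₁ w₀ c b e j ∩ AccW k O M p₁ w₀ c (2 * j + e)) = ENNReal.ofReal (a j) := by
    intro j
    simp only [ha, prob]
    rw [ofReal_measureReal (measure_ne_top _ _)]
  simp only [h6]
  exact hsum.tsum_ofReal_ne_top

/-- infinitely many accepted lengths: one of them has the value `b` -/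
theorem ae_hit (hO : MO O) (b : Bool) : ∀ᵐ A ∂(randomOracle fun _ => fair),
    (∃ᶠ i : ℕ in atTop, A ∈ AccW k O M p₁ w₀ c i) →
    ∃ i N, W w₀ c i ≤ N ∧ N < W w₀ c (i + 1) ∧
      A ∈ Acc k O M (p₁.eval (W w₀ c (i + 1))) N ∧ A ∈ Rt k N b := by
  filter_upwards [ae_window hw hO b 0, ae_window hw hO b 1] with A h0 h1 hinf
  by_contra hcon
  push Not at hcon
  have hS : ∀ e j, A ∈ Surv k O M p₁ w₀ c b e j := by
    intro e j j' _ N h2 h3 h4
    have h5 := hcon (2 * j' + e) N h2 h3 h4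
    show (inp k N ∈ lang k A ↔ (!b) = false)
    by_contra h6
    apply h5
    show (inp k N ∈ lang k A ↔ b = false)
    cases b <;> simp at h6 ⊢ <;> tauto
  have h2 : ∀ e, (∀ᶠ j : ℕ in atTop, A ∉ Surv k O M p₁ w₀ c b e j ∩
      AccW k O M p₁ w₀ c (2 * j + e)) → ∀ᶠ j : ℕ in atTop, A ∉ AccW k O M p₁ w₀ c (2 * j + e) := by
    intro e h
    filter_upwards [h] with j hj hA
    exact hj ⟨hS e j, hA⟩
  obtain ⟨n0, hn0⟩ := eventually_atTop.1 (h2 0 h0)
  obtain ⟨n1, hn1⟩ := eventually_atTop.1 (h2 1 h1)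
  refine hinf ?_
  filter_upwards [eventually_ge_atTop (2 * max n0 n1 + 2)] with i hi
  rcases Nat.even_or_odd' i with ⟨j, rfl | rfl⟩
  · have := hn0 j (by
      have := le_max_left n0 n1
      omega)
    simpa using this
  · exact hn1 j (by
      have := le_max_right n0 n1
      omega)

end Pool.Agent.J6H49.BI
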